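import Pool.Agent.Q48.RW.Main

/-! Random walk multipliers: arbitrary balls. -/

set_option autoImplicit false

namespace Q48.RW

open MeasureTheory ProbabilityTheory Filter Set Topology Metric
open scoped ENNReal NNReal RealInnerProductSpace FourierTransform Pointwise
open Pool.Agent.Q261.ST (wt ph)
open Q87.RA (An pc M Radii rnd an mx ps C1 C1_nonneg mf)

variable {V : Type*} [NormedAddCommGroup V] [InnerProductSpace ℝ V] [FiniteDimensional ℝ V]
  [MeasurableSpace V] [BorelSpace V]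

variable {Ω : Type*} [MeasurableSpace Ω]

/-- the maximal inequality on the unit ball around an arbitrary point -/
theorem unit_ball [Nontrivial V] (P : Measure Ω) [IsProbabilityMeasure P] (ξ : ℕ → Ω → ℂ) (σ : ℝ)
    (hξ : Hyp P ξ σ) (p : ℕ) (hp : (1 - σ) ^ p ≤ 1 / 2) {r : ℕ → ℝ} {L : ℝ} (h : Radii r L)
    (m : ℕ) (hm : ((p + 1 : ℕ) : ℝ) * L ≤ 2 ^ m) {g : V → ℂ} (hg : MemLp g 2 volume) (y : V) :
    ∫⁻ ω, (∫⁻ x in closedBall y 1, mf (rnd r (fun k => X ξ k ω) g) x ^ 2) ∂P ≤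
      ENNReal.ofReal (Real.exp Real.pi * (706 * C1 V * (m + 4) ^ 2)) * ∫⁻ η, ‖g η‖ₑ ^ 2 := by
  set g' : V → ℂ := fun η => ph 0 y η * g η with hg'
  have hg2 : MemLp g' 2 volume := Q87.RA.memLp_phase hg y
  have hn : ∫⁻ η, ‖g' η‖ₑ ^ 2 = ∫⁻ η, ‖g η‖ₑ ^ 2 := by
    refine lintegral_congr fun η => ?_
    rw [hg', enorm_mul, ← ofReal_norm (ph 0 y η), Pool.Agent.Q261.ST.norm_ph, ENNReal.ofReal_one,
      one_mul]
  have hw := weighted2 P ξ σ hξ p hp h m hm hg2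
  rw [hn] at hw
  have hstep : ∀ ω, ∫⁻ x in closedBall y 1, mf (rnd r (fun k => X ξ k ω) g) x ^ 2 ≤
      ENNReal.ofReal (Real.exp Real.pi) * ∫⁻ x : V,
        (⨆ R : ℝ, ‖pc (rnd r (fun k => X ξ k ω) g') 0 R x‖ₑ) ^ 2 * ENNReal.ofReal (wt x) := by
    intro ω
    have e1 : ∀ z : V, mf (rnd r (fun k => X ξ k ω) g) (y + z) =
        mf (rnd r (fun k => X ξ k ω) g') z := by
      intro z
      unfold mf
      congr 1
      funext R
      rw [Q87.RA.pc_translate]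
      congr 2
      funext η
      exact Q87.RA.rnd_mul h _ g (fun η => ph 0 y η) η
    have e2 : ∫⁻ x in closedBall y 1, mf (rnd r (fun k => X ξ k ω) g) x ^ 2 =
        ∫⁻ z in closedBall (0 : V) 1, mf (rnd r (fun k => X ξ k ω) g') z ^ 2 := by
      rw [← lintegral_indicator isClosed_closedBall.measurableSet,
        ← lintegral_indicator isClosed_closedBall.measurableSet,
        ← lintegral_add_left_eq_self _ y]
      refine lintegral_congr fun z => ?_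
      by_cases hz : z ∈ closedBall (0 : V) 1
      · have hz' : y + z ∈ closedBall y 1 := by
          rw [mem_closedBall, dist_eq_norm, add_sub_cancel_left]
          rwa [mem_closedBall_zero_iff] at hz
        rw [indicator_of_mem hz, indicator_of_mem hz', e1]
      · have hz' : y + z ∉ closedBall y 1 := by
          rw [mem_closedBall, dist_eq_norm, add_sub_cancel_left]
          rwa [mem_closedBall_zero_iff] at hz
        rw [indicator_of_notMem hz, indicator_of_notMem hz']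
    rw [e2, ← lintegral_const_mul' _ _ ENNReal.ofReal_ne_top,
      ← lintegral_indicator isClosed_closedBall.measurableSet]
    refine lintegral_mono fun z => ?_
    by_cases hz : z ∈ closedBall (0 : V) 1
    · rw [indicator_of_mem hz]
      have h6 : 1 ≤ ENNReal.ofReal (Real.exp Real.pi) * ENNReal.ofReal (wt z) := by
        rw [← ENNReal.ofReal_mul (Real.exp_pos _).le, ← ENNReal.ofReal_one]
        apply ENNReal.ofReal_le_ofReal
        unfold wt
        rw [← Real.exp_add, Real.one_le_exp_iff]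
        rw [mem_closedBall_zero_iff] at hz
        have hp := Real.pi_pos
        have h1 : ‖z‖ ^ 2 ≤ 1 := pow_le_one₀ (norm_nonneg _) hz
        nlinarith
      calc mf (rnd r (fun k => X ξ k ω) g') z ^ 2 = 1 * mf (rnd r (fun k => X ξ k ω) g') z ^ 2 :=
            (one_mul _).symm
        _ ≤ (ENNReal.ofReal (Real.exp Real.pi) * ENNReal.ofReal (wt z)) *
            mf (rnd r (fun k => X ξ k ω) g') z ^ 2 := mul_le_mul' h6 le_rfl
        _ = _ := by
          unfold mf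
          ring
    · rw [indicator_of_notMem hz]
      exact zero_le
  calc ∫⁻ ω, (∫⁻ x in closedBall y 1, mf (rnd r (fun k => X ξ k ω) g) x ^ 2) ∂P
      ≤ ∫⁻ ω, (ENNReal.ofReal (Real.exp Real.pi) * ∫⁻ x : V,
        (⨆ R : ℝ, ‖pc (rnd r (fun k => X ξ k ω) g') 0 R x‖ₑ) ^ 2 * ENNReal.ofReal (wt x)) ∂P :=
        lintegral_mono hstep
    _ = ENNReal.ofReal (Real.exp Real.pi) * ∫⁻ ω, (∫⁻ x : V,
        (⨆ R : ℝ, ‖pc (rnd r (fun k => X ξ k ω) g') 0 R x‖ₑ) ^ 2 * ENNReal.ofReal (wt x)) ∂P :=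
        lintegral_const_mul' _ _ ENNReal.ofReal_ne_top
    _ ≤ ENNReal.ofReal (Real.exp Real.pi) * (ENNReal.ofReal (706 * C1 V * (m + 4) ^ 2) *
        ∫⁻ η, ‖g η‖ₑ ^ 2) := mul_le_mul' le_rfl hw
    _ = _ := by
        rw [← mul_assoc, ← ENNReal.ofReal_mul (Real.exp_pos _).le]

/-- the maximal inequality on balls -/
theorem any_ball [Nontrivial V] (P : Measure Ω) [IsProbabilityMeasure P] (ξ : ℕ → Ω → ℂ) (σ : ℝ)
    (hξ : Hyp P ξ σ) (p : ℕ) (hp : (1 - σ) ^ p ≤ 1 / 2) {r : ℕ → ℝ} {L : ℝ} (h : Radii r L)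
    {g : V → ℂ} (hgm : StronglyMeasurable g) (hg : MemLp g 2 volume) (x₀ : V) (ρ : ℝ) (hρ : 0 < ρ)
    (m : ℕ) (hm : ((p + 1 : ℕ) : ℝ) * (ρ * L) ≤ 2 ^ m) :
    ∫⁻ ω, (∫⁻ x in closedBall x₀ ρ, mf (rnd r (fun k => X ξ k ω) g) x ^ 2) ∂P ≤
      ENNReal.ofReal (Real.exp Real.pi * (706 * C1 V * (m + 4) ^ 2)) * ∫⁻ η, ‖g η‖ₑ ^ 2 := by
  have hG : ∫⁻ η, ‖g η‖ₑ ^ 2 ≠ ⊤ := by
    have h3 := hg.eLpNorm_lt_top
    rw [eLpNorm_lt_top_iff_lintegral_rpow_enorm_lt_top (by norm_num) (by norm_num)] at h3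
    simpa using h3.ne
  set d := Module.finrank ℝ V with hd
  set h' : V → ℂ := fun η => g (ρ⁻¹ • η) with hh'
  have hL' : MemLp h' 2 volume := Q89.MS.memLp_smul g hgm hG ρ hρ
  have hr : Radii (fun k => ρ * r k) (ρ * L) := h.scale hρ
  have hu := unit_ball P ξ σ hξ p hp hr m hm hL' (ρ⁻¹ • x₀)
  rw [Q89.MS.sq_smul g hgm ρ hρ, ← hd] at hu
  have hpd : (0 : ℝ) < ρ ^ d := by positivity
  have hstep : ∀ ω, ∫⁻ x in closedBall x₀ ρ, mf (rnd r (fun k => X ξ k ω) g) x ^ 2 ≤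
      ENNReal.ofReal ((ρ ^ d)⁻¹) *
        ∫⁻ x in closedBall (ρ⁻¹ • x₀) 1, mf (rnd (fun k => ρ * r k) (fun k => X ξ k ω) h') x ^ 2 := by
    intro ω
    have hc : ∀ k, ‖X ξ k ω‖ ≤ 1 := fun k => X_le ξ hξ.le k ω
    have hmm := Q87.RA.mf_meas (Q87.RA.rnd_memLp hr _ hc hL')
    have e1 : ∀ x : V, mf (rnd r (fun k => X ξ k ω) g) x ≤
        ENNReal.ofReal ((ρ ^ d)⁻¹) *
          mf (rnd (fun k => ρ * r k) (fun k => X ξ k ω) h') (ρ⁻¹ • x) := by
      intro x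
      unfold mf
      refine iSup_le fun R => ?_
      have h1 := Q87.RA.pc_scale (rnd r (fun k => X ξ k ω) g) R ρ hρ (ρ⁻¹ • x)
      rw [smul_smul, mul_inv_cancel₀ hρ.ne', one_smul] at h1
      rw [h1, enorm_smul, Real.enorm_of_nonneg (by positivity)]
      refine mul_le_mul' le_rfl ?_
      have e3 : (fun η : V => rnd r (fun k => X ξ k ω) g (ρ⁻¹ • η)) =
          rnd (fun k => ρ * r k) (fun k => X ξ k ω) h' := by
        funext η
        exact Q87.RA.rnd_scale h hρ _ g η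
      rw [e3]
      exact le_iSup (fun R : ℝ => ‖pc (rnd (fun k => ρ * r k) (fun k => X ξ k ω) h') 0 R
        (ρ⁻¹ • x)‖ₑ) (ρ * R)
    have hmF : Measurable fun x : V => mf (rnd (fun k => ρ * r k) (fun k => X ξ k ω) h') x ^ 2 :=
      hmm.pow_const 2
    calc ∫⁻ x in closedBall x₀ ρ, mf (rnd r (fun k => X ξ k ω) g) x ^ 2
        ≤ ∫⁻ x in closedBall x₀ ρ, ENNReal.ofReal (((ρ ^ d)⁻¹) ^ 2) *
          mf (rnd (fun k => ρ * r k) (fun k => X ξ k ω) h') (ρ⁻¹ • x) ^ 2 := by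
          refine lintegral_mono fun x => ?_
          calc mf (rnd r (fun k => X ξ k ω) g) x ^ 2 ≤ (ENNReal.ofReal ((ρ ^ d)⁻¹) *
                mf (rnd (fun k => ρ * r k) (fun k => X ξ k ω) h') (ρ⁻¹ • x)) ^ 2 :=
                pow_le_pow_left₀ zero_le (e1 x) 2
            _ = _ := by rw [mul_pow, ENNReal.ofReal_pow (by positivity)]
      _ = ENNReal.ofReal (((ρ ^ d)⁻¹) ^ 2) * (ENNReal.ofReal (ρ ^ d) *
          ∫⁻ x in closedBall (ρ⁻¹ • x₀) 1,
            mf (rnd (fun k => ρ * r k) (fun k => X ξ k ω) h') x ^ 2) := by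
          rw [lintegral_const_mul' _ _ ENNReal.ofReal_ne_top,
            Q89.MS.lint_ball_smul
              (fun x => mf (rnd (fun k => ρ * r k) (fun k => X ξ k ω) h') x ^ 2) hmF ρ hρ x₀]
      _ = _ := by
          rw [← mul_assoc, ← ENNReal.ofReal_mul (by positivity)]
          congr 2
          field_simp
  calc ∫⁻ ω, (∫⁻ x in closedBall x₀ ρ, mf (rnd r (fun k => X ξ k ω) g) x ^ 2) ∂P
      ≤ ∫⁻ ω, (ENNReal.ofReal ((ρ ^ d)⁻¹) *
        ∫⁻ x in closedBall (ρ⁻¹ • x₀) 1,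
          mf (rnd (fun k => ρ * r k) (fun k => X ξ k ω) h') x ^ 2) ∂P := lintegral_mono hstep
    _ = ENNReal.ofReal ((ρ ^ d)⁻¹) * ∫⁻ ω, (
        ∫⁻ x in closedBall (ρ⁻¹ • x₀) 1,
          mf (rnd (fun k => ρ * r k) (fun k => X ξ k ω) h') x ^ 2) ∂P :=
        lintegral_const_mul' _ _ ENNReal.ofReal_ne_top
    _ ≤ ENNReal.ofReal ((ρ ^ d)⁻¹) * (ENNReal.ofReal (Real.exp Real.pi *
        (706 * C1 V * (m + 4) ^ 2)) * (ENNReal.ofReal (ρ ^ d) * ∫⁻ η, ‖g η‖ₑ ^ 2)) :=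
        mul_le_mul' le_rfl hu
    _ = (ENNReal.ofReal ((ρ ^ d)⁻¹) * ENNReal.ofReal (ρ ^ d)) * (ENNReal.ofReal (Real.exp Real.pi *
        (706 * C1 V * (m + 4) ^ 2)) * ∫⁻ η, ‖g η‖ₑ ^ 2) := by ring
    _ = _ := by
        rw [← ENNReal.ofReal_mul (by positivity), inv_mul_cancel₀ hpd.ne', ENNReal.ofReal_one,
          one_mul]

/-- the length of the blocks -/
lemma exists_p (σ : ℝ) (h0 : 0 < σ) (h1 : σ ≤ 1) :
    ∃ p : ℕ, (1 - σ) ^ p ≤ 1 / 2 ∧ ((p + 1 : ℕ) : ℝ) ≤ 3 / σ := by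
  refine ⟨⌈1 / σ⌉₊, ?_, ?_⟩
  · have h2 : 1 - σ ≤ Real.exp (-σ) := by
      have := Real.add_one_le_exp (-σ)
      linarith
    have h3 : (1 : ℝ) / σ ≤ ⌈1 / σ⌉₊ := Nat.le_ceil _
    calc (1 - σ) ^ ⌈1 / σ⌉₊ ≤ Real.exp (-σ) ^ ⌈1 / σ⌉₊ := pow_le_pow_left₀ (by linarith) h2 _
      _ = Real.exp (-(σ * ⌈1 / σ⌉₊)) := by
          rw [← Real.exp_nat_mul]
          congr 1
          ring
      _ ≤ Real.exp (-1) := by
          apply Real.exp_le_exp.2
          have : 1 ≤ σ * ⌈1 / σ⌉₊ := by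
            rw [div_le_iff₀ h0] at h3
            linarith
          linarith
      _ ≤ 1 / 2 := by
          rw [Real.exp_neg, one_div]
          apply inv_anti₀ (by norm_num)
          have := Real.add_one_le_exp (1 : ℝ)
          linarith
  · have h3 : (⌈1 / σ⌉₊ : ℝ) < 1 / σ + 1 := Nat.ceil_lt_add_one (by positivity)
    have h4 : 1 ≤ 1 / σ := by
      rw [le_div_iff₀ h0]
      linarith
    push_cast
    have h5 : 3 / σ = 1 / σ + 1 / σ + 1 / σ := by ring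
    rw [h5]
    linarith

end Q48.RW
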