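import Pool.Agent.Q48.RW.Renew

/-! The blocks of a random walk `X_k = ξ_0 ξ_1 ⋯ ξ_k` with independent factors. -/

set_option autoImplicit false

namespace Q48.RW

open MeasureTheory ProbabilityTheory Filter
open scoped ENNReal

variable {Ω : Type*}

/-- the walk -/
noncomputable def X (ξ : ℕ → Ω → ℂ) (k : ℕ) (ω : Ω) : ℂ := ∏ j ∈ Finset.range (k + 1), ξ j ω

/-- the walk inside a block -/
noncomputable def Zb (ξ : ℕ → Ω → ℂ) (l b i : ℕ) (ω : Ω) : ℂ :=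
  ∏ j ∈ Finset.range (i + 1), ξ (b * l + j) ω

/-- the multiplier of a block -/
noncomputable def Vb (ξ : ℕ → Ω → ℂ) (l b : ℕ) (ω : Ω) : ℂ :=
  ∏ j ∈ Finset.range l, ξ (b * l + j) ω

/-- the sum of a block -/
noncomputable def Gb (ξ : ℕ → Ω → ℂ) (l : ℕ) (a : ℕ → ℂ) (b : ℕ) (ω : Ω) : ℂ :=
  ∑ i ∈ Finset.range l, Zb ξ l b i ω * a (b * l + i)

lemma W_Vb (ξ : ℕ → Ω → ℂ) (l b : ℕ) (ω : Ω) :
    W (Vb ξ l) b ω = ∏ j ∈ Finset.range (b * l), ξ j ω := by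
  induction b with
  | zero => simp [W]
  | succ b ih =>
    rw [W_succ, ih, Nat.succ_mul, Finset.prod_range_add]
    rfl

lemma X_eq (ξ : ℕ → Ω → ℂ) (l k : ℕ) (ω : Ω) :
    X ξ k ω = W (Vb ξ l) (k / l) ω * Zb ξ l (k / l) (k % l) ω := by
  rw [W_Vb]
  unfold X Zb
  rw [← Finset.prod_range_add]
  congr 2
  have := Nat.div_add_mod k l
  rw [mul_comm] at this
  omega

lemma X_le (ξ : ℕ → Ω → ℂ) (h : ∀ k ω, ‖ξ k ω‖ ≤ 1) (k : ℕ) (ω : Ω) : ‖X ξ k ω‖ ≤ 1 := by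
  unfold X
  rw [norm_prod]
  exact Finset.prod_le_one (fun _ _ => norm_nonneg _) fun _ _ => h _ ω

lemma Zb_le (ξ : ℕ → Ω → ℂ) (h : ∀ k ω, ‖ξ k ω‖ ≤ 1) (l b i : ℕ) (ω : Ω) : ‖Zb ξ l b i ω‖ ≤ 1 := by
  unfold Zb
  rw [norm_prod]
  exact Finset.prod_le_one (fun _ _ => norm_nonneg _) fun _ _ => h _ ω

lemma Vb_le (ξ : ℕ → Ω → ℂ) (h : ∀ k ω, ‖ξ k ω‖ ≤ 1) (l b : ℕ) (ω : Ω) : ‖Vb ξ l b ω‖ ≤ 1 := by
  unfold Vb
  rw [norm_prod]
  exact Finset.prod_le_one (fun _ _ => norm_nonneg _) fun _ _ => h _ ω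

lemma Gb_le (ξ : ℕ → Ω → ℂ) (h : ∀ k ω, ‖ξ k ω‖ ≤ 1) (l : ℕ) (a : ℕ → ℂ) (b : ℕ) (ω : Ω) :
    ‖Gb ξ l a b ω‖ ≤ ∑ i ∈ Finset.range l, ‖a (b * l + i)‖ := by
  unfold Gb
  refine (norm_sum_le _ _).trans (Finset.sum_le_sum fun i _ => ?_)
  rw [norm_mul]
  nlinarith [Zb_le ξ h l b i ω, norm_nonneg (a (b * l + i))]

lemma Zb_meas (m : MeasurableSpace Ω) (ξ : ℕ → Ω → ℂ) (l b i : ℕ)
    (h : ∀ j < i + 1, Measurable[m] (ξ (b * l + j))) : Measurable[m] (Zb ξ l b i) := by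
  unfold Zb
  exact Finset.measurable_prod _ fun j hj => h j (Finset.mem_range.1 hj)

lemma Vb_meas (m : MeasurableSpace Ω) (ξ : ℕ → Ω → ℂ) (l b : ℕ)
    (h : ∀ j < l, Measurable[m] (ξ (b * l + j))) : Measurable[m] (Vb ξ l b) := by
  unfold Vb
  exact Finset.measurable_prod _ fun j hj => h j (Finset.mem_range.1 hj)

lemma Gb_meas (m : MeasurableSpace Ω) (ξ : ℕ → Ω → ℂ) (l : ℕ) (a : ℕ → ℂ) (b : ℕ)
    (h : ∀ j < l, Measurable[m] (ξ (b * l + j))) : Measurable[m] (Gb ξ l a b) := by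
  unfold Gb
  refine Finset.measurable_sum _ fun i hi => ?_
  have hi' := Finset.mem_range.1 hi
  exact (Zb_meas m ξ l b i fun j hj => h j (by omega)).mul_const _

/-- the past of a block -/
@[implicit_reducible] noncomputable def past (ξ : ℕ → Ω → ℂ) (l n : ℕ) : MeasurableSpace Ω :=
  MeasurableSpace.comap (fun ω (i : Finset.range (n * l)) => ξ i ω) inferInstance

/-- the block -/
@[implicit_reducible] noncomputable def pres (ξ : ℕ → Ω → ℂ) (l n : ℕ) : MeasurableSpace Ω :=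
  MeasurableSpace.comap (fun ω (i : Finset.Ico (n * l) (n * l + l)) => ξ i ω) inferInstance

lemma past_meas (ξ : ℕ → Ω → ℂ) (l n j : ℕ) (hj : j < n * l) : Measurable[past ξ l n] (ξ j) := by
  have h1 : Measurable (fun f : Finset.range (n * l) → ℂ => f ⟨j, Finset.mem_range.2 hj⟩) :=
    measurable_pi_apply _
  exact h1.comp (comap_measurable (fun ω (i : Finset.range (n * l)) => ξ i ω))

lemma pres_meas (ξ : ℕ → Ω → ℂ) (l n j : ℕ) (hj : j < l) : Measurable[pres ξ l n] (ξ (n * l + j)) := by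
  have h1 : Measurable (fun f : Finset.Ico (n * l) (n * l + l) → ℂ =>
    f ⟨n * l + j, Finset.mem_Ico.2 ⟨by omega, by omega⟩⟩) := measurable_pi_apply _
  exact h1.comp (comap_measurable (fun ω (i : Finset.Ico (n * l) (n * l + l)) => ξ i ω))

variable [m0 : MeasurableSpace Ω]

/-- independent factors of modulus at most one, whose means are at most `1 - σ` in modulus -/
structure Hyp (P : Measure Ω) (ξ : ℕ → Ω → ℂ) (σ : ℝ) : Prop where
  meas : ∀ k, Measurable (ξ k)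
  le : ∀ k ω, ‖ξ k ω‖ ≤ 1
  ind : iIndepFun ξ P
  mean : ∀ k, 1 ≤ k → ‖∫ ω, ξ k ω ∂P‖ ≤ 1 - σ

lemma mean_Vb (P : Measure Ω) [IsProbabilityMeasure P] (ξ : ℕ → Ω → ℂ) (σ : ℝ) (h : Hyp P ξ σ)
    (l b : ℕ) : ∫ ω, Vb ξ l b ω ∂P = ∏ i ∈ Finset.range l, ∫ ω, ξ (b * l + i) ω ∂P := by
  have h1 : iIndepFun (fun i : Fin l => ξ (b * l + i)) P :=
    h.ind.precomp (g := fun i : Fin l => b * l + (i : ℕ)) fun i j hij => by
      have : b * l + (i : ℕ) = b * l + (j : ℕ) := hij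
      exact Fin.ext (by omega)
  have h2 := h1.integral_fun_prod_eq_prod_integral fun i => (h.meas _).aestronglyMeasurable
  have h3 : ∀ ω, ∏ i : Fin l, ξ (b * l + i) ω = Vb ξ l b ω := fun ω => by
    unfold Vb
    exact Fin.prod_univ_eq_prod_range (fun i => ξ (b * l + i) ω) l
  simp_rw [h3] at h2
  rw [h2]
  exact Fin.prod_univ_eq_prod_range (fun i => ∫ ω, ξ (b * l + i) ω ∂P) l

lemma norm_mean_Vb (P : Measure Ω) [IsProbabilityMeasure P] (ξ : ℕ → Ω → ℂ) (σ : ℝ) (h : Hyp P ξ σ)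
    (p b : ℕ) (hp : (1 - σ) ^ p ≤ 1 / 2) : ‖∫ ω, Vb ξ (p + 1) b ω ∂P‖ ≤ 1 / 2 := by
  rw [mean_Vb P ξ σ h, norm_prod, Finset.prod_range_succ']
  have h0 : ∀ k, ‖∫ ω, ξ k ω ∂P‖ ≤ 1 := fun k => by
    have := norm_integral_le_of_norm_le_const (μ := P) (Eventually.of_forall (h.le k))
    simpa using this
  have h1 : ∏ k ∈ Finset.range p, ‖∫ ω, ξ (b * (p + 1) + (k + 1)) ω ∂P‖ ≤ (1 - σ) ^ p := by
    calc ∏ k ∈ Finset.range p, ‖∫ ω, ξ (b * (p + 1) + (k + 1)) ω ∂P‖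
        ≤ ∏ _k ∈ Finset.range p, (1 - σ) :=
          Finset.prod_le_prod (fun _ _ => norm_nonneg _) fun k _ => h.mean _ (by omega)
      _ = _ := by rw [Finset.prod_const, Finset.card_range]
  have h2 : 0 ≤ ∏ k ∈ Finset.range p, ‖∫ ω, ξ (b * (p + 1) + (k + 1)) ω ∂P‖ :=
    Finset.prod_nonneg fun _ _ => norm_nonneg _
  calc _ ≤ (∏ k ∈ Finset.range p, ‖∫ ω, ξ (b * (p + 1) + (k + 1)) ω ∂P‖) * 1 :=
        mul_le_mul_of_nonneg_left (h0 _) h2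
    _ ≤ 1 / 2 := by linarith

/-- the blocks satisfy the hypothesis of the renewal inequality -/
theorem blk (P : Measure Ω) [IsProbabilityMeasure P] (ξ : ℕ → Ω → ℂ) (σ : ℝ) (h : Hyp P ξ σ)
    (p : ℕ) (hp : (1 - σ) ^ p ≤ 1 / 2) (a : ℕ → ℂ) :
    Blk P (past ξ (p + 1)) (Vb ξ (p + 1)) (Gb ξ (p + 1) a) where
  vm := fun k => Vb_meas _ ξ _ k fun _ _ => h.meas _
  gm := fun k => Gb_meas _ ξ _ a k fun _ _ => h.meas _
  vF := fun n k hk => Vb_meas _ ξ _ k fun j hj => past_meas ξ _ n _ (by nlinarith)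
  gF := fun n k hk => Gb_meas _ ξ _ a k fun j hj => past_meas ξ _ n _ (by nlinarith)
  ind := fun n => by
    have h1 := h.ind.indepFun_finset (Finset.range (n * (p + 1)))
      (Finset.Ico (n * (p + 1)) (n * (p + 1) + (p + 1))) (by
        rw [Finset.disjoint_left]
        intro x hx1 hx2
        rw [Finset.mem_range] at hx1
        rw [Finset.mem_Ico] at hx2
        omega) h.meas
    rw [IndepFun_iff_Indep] at h1
    refine indep_of_indep_of_le_right h1 ?_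
    rw [← measurable_iff_comap_le]
    exact (Vb_meas (pres ξ (p + 1) n) ξ _ n fun j hj => pres_meas ξ _ n j hj).prodMk
      (Gb_meas (pres ξ (p + 1) n) ξ _ a n fun j hj => pres_meas ξ _ n j hj)
  vb := Vb_le ξ h.le _
  gb := fun k => ⟨_, Gb_le ξ h.le _ a k⟩
  half := fun k => norm_mean_Vb P ξ σ h p k hp

end Q48.RW
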