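import Pool.Agent.Q48.RW.Main

/-! Random walk multipliers: almost sure convergence almost everywhere. -/

set_option autoImplicit false

namespace Q48.RW

open MeasureTheory ProbabilityTheory Filter Set Topology Metric
open scoped ENNReal NNReal RealInnerProductSpace
open Pool.Agent.Q261.ST (wt ph)
open Q87.RA (An pc M Radii rnd an mx ps C1 C1_nonneg cut)

section tail

variable {Ω : Type*}

lemma Gb_cut (ξ : ℕ → Ω → ℂ) (l : ℕ) (a : ℕ → ℂ) (N b : ℕ) (ω : Ω) :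
    Gb ξ l (cut (N * l) a) b ω = if b < N then 0 else Gb ξ l a b ω := by
  unfold Gb cut
  split_ifs with h
  · refine Finset.sum_eq_zero fun i hi => ?_
    have hi' := Finset.mem_range.1 hi
    have h1 : (b + 1) * l ≤ N * l := Nat.mul_le_mul_right l h
    rw [Nat.succ_mul] at h1
    rw [if_pos (by omega), mul_zero]
  · refine Finset.sum_congr rfl fun i _ => ?_
    have h1 : N * l ≤ b * l := Nat.mul_le_mul_right l (not_lt.1 h)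
    rw [if_neg (by omega)]

lemma T_cut (ξ : ℕ → Ω → ℂ) (l : ℕ) (a : ℕ → ℂ) (N n : ℕ) (hn : N ≤ n) (ω : Ω) :
    T (Vb ξ l) (Gb ξ l (cut (N * l) a)) n ω =
      T (Vb ξ l) (Gb ξ l a) n ω - T (Vb ξ l) (Gb ξ l a) N ω := by
  induction n, hn using Nat.le_induction with
  | base =>
    rw [sub_self]
    unfold T
    refine Finset.sum_eq_zero fun k hk => ?_
    rw [Gb_cut, if_pos (Finset.mem_range.1 hk), mul_zero]
  | succ n hn ih =>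
    rw [T_succ, T_succ, ih, Gb_cut, if_neg (by omega)]
    ring

lemma cauchy_of_inf (ξ : ℕ → Ω → ℂ) (l : ℕ) (a : ℕ → ℂ) (ω : Ω)
    (h : ⨅ N, mxg (Vb ξ l) (Gb ξ l (cut (N * l) a)) ω = 0) :
    ∃ z, Tendsto (fun n => T (Vb ξ l) (Gb ξ l a) n ω) atTop (𝓝 z) := by
  apply cauchySeq_tendsto_of_complete
  rw [Metric.cauchySeq_iff']
  intro ε hε
  have h1 : ⨅ N, mxg (Vb ξ l) (Gb ξ l (cut (N * l) a)) ω < ENNReal.ofReal ε ^ 2 := by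
    rw [h]
    have : ENNReal.ofReal ε ≠ 0 := by simpa using hε
    positivity
  obtain ⟨N, hN⟩ := iInf_lt_iff.1 h1
  refine ⟨N, fun n hn => ?_⟩
  have h2 : ‖T (Vb ξ l) (Gb ξ l (cut (N * l) a)) n ω‖ₑ ^ 2 < ENNReal.ofReal ε ^ 2 :=
    (le_iSup (fun n => ‖T (Vb ξ l) (Gb ξ l (cut (N * l) a)) n ω‖ₑ ^ 2) n).trans_lt hN
  rw [T_cut ξ l a N n hn] at h2
  have h3 := Q87.RA.lt_of_sq_lt h2
  rw [← ofReal_norm] at h3
  rw [dist_eq_norm]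
  exact (ENNReal.ofReal_lt_ofReal_iff hε).1 h3

variable [MeasurableSpace Ω]

lemma cut_sum (P : Measure Ω) (ξ : ℕ → Ω → ℂ) (l : ℕ) (a : ℕ → ℂ) (N : ℕ) :
    ∑' b, ∫⁻ ω, ‖Gb ξ l (cut (N * l) a) b ω‖ₑ ^ 2 ∂P =
      ∑' b, ∫⁻ ω, ‖Gb ξ l a (b + N) ω‖ₑ ^ 2 ∂P := by
  have h1 : ∑' b, ∫⁻ ω, ‖Gb ξ l (cut (N * l) a) b ω‖ₑ ^ 2 ∂P =
      ∑ b ∈ Finset.range N, ∫⁻ ω, ‖Gb ξ l (cut (N * l) a) b ω‖ₑ ^ 2 ∂P +
      ∑' b, ∫⁻ ω, ‖Gb ξ l (cut (N * l) a) (b + N) ω‖ₑ ^ 2 ∂P :=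
    (Summable.sum_add_tsum_nat_add' ENNReal.summable).symm
  rw [h1, Finset.sum_eq_zero, zero_add]
  · congr 1
    funext b
    refine lintegral_congr fun ω => ?_
    rw [Gb_cut, if_neg (by omega)]
  · intro b hb
    have h2 : ∀ ω, ‖Gb ξ l (cut (N * l) a) b ω‖ₑ ^ 2 = 0 := fun ω => by
      rw [Gb_cut, if_pos (Finset.mem_range.1 hb)]
      simp
    simp_rw [h2]
    simp

lemma int_inf (P : Measure Ω) [IsProbabilityMeasure P] (ξ : ℕ → Ω → ℂ) (σ : ℝ)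
    (hξ : Hyp P ξ σ) (p : ℕ) (hp : (1 - σ) ^ p ≤ 1 / 2) (a : ℕ → ℂ)
    (ha : ∑' b, ∫⁻ ω, ‖Gb ξ (p + 1) a b ω‖ₑ ^ 2 ∂P ≠ ⊤) :
    ∫⁻ ω, (⨅ N, mxg (Vb ξ (p + 1)) (Gb ξ (p + 1) (cut (N * (p + 1)) a)) ω) ∂P = 0 := by
  have h1 : Tendsto (fun N => 352 * ∑' b, ∫⁻ ω, ‖Gb ξ (p + 1) a (b + N) ω‖ₑ ^ 2 ∂P) atTop
      (𝓝 (352 * 0)) :=
    ENNReal.Tendsto.const_mul
      (ENNReal.tendsto_sum_nat_add (fun b => ∫⁻ ω, ‖Gb ξ (p + 1) a b ω‖ₑ ^ 2 ∂P) ha)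
      (Or.inr ENNReal.ofNat_ne_top)
  rw [mul_zero] at h1
  refine le_antisymm (ge_of_tendsto' h1 fun N => ?_) zero_le
  calc ∫⁻ ω, (⨅ N, mxg (Vb ξ (p + 1)) (Gb ξ (p + 1) (cut (N * (p + 1)) a)) ω) ∂P
      ≤ ∫⁻ ω, mxg (Vb ξ (p + 1)) (Gb ξ (p + 1) (cut (N * (p + 1)) a)) ω ∂P :=
        lintegral_mono fun ω => iInf_le _ N
    _ ≤ 352 * ∑' b, ∫⁻ ω, ‖Gb ξ (p + 1) (cut (N * (p + 1)) a) b ω‖ₑ ^ 2 ∂P :=
        renewal P _ _ _ (blk P ξ σ hξ p hp _)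
    _ = _ := by rw [cut_sum]

end tail

variable {V : Type*} [NormedAddCommGroup V] [InnerProductSpace ℝ V] [FiniteDimensional ℝ V]
  [MeasurableSpace V] [BorelSpace V]

variable {Ω : Type*} [MeasurableSpace Ω]

/-- almost sure convergence almost everywhere -/
theorem conv_ae [Nontrivial V] (P : Measure Ω) [IsProbabilityMeasure P] (ξ : ℕ → Ω → ℂ) (σ : ℝ)
    (hξ : Hyp P ξ σ) (p : ℕ) (hp : (1 - σ) ^ p ≤ 1 / 2) {r : ℕ → ℝ} {L : ℝ} (hL : Radii r L)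
    {g : V → ℂ} (hg : MemLp g 2 volume) :
    ∀ᵐ ω ∂P, ∀ᵐ x : V, ∃ z : ℂ,
      Tendsto (fun R => pc (rnd r (fun k => X ξ k ω) g) 0 R x) atTop (𝓝 z) := by
  have hl : 0 < p + 1 := Nat.succ_pos p
  obtain ⟨m, hm⟩ : ∃ m : ℕ, ((p + 1 : ℕ) : ℝ) * L ≤ 2 ^ m := by
    obtain ⟨m, hm⟩ := pow_unbounded_of_one_lt (((p + 1 : ℕ) : ℝ) * L) (by norm_num : (1 : ℝ) < 2)
    exact ⟨m, hm.le⟩
  have h : Radii (br r (p + 1)) (2 ^ m) := by
    have := br_radii hL (p + 1) hl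
    exact ⟨this.zero, this.mono, this.top, fun k => (this.gap k).trans hm⟩
  have hg2 : ∫⁻ η, ‖g η‖ₑ ^ 2 ≠ ⊤ := by
    have h3 := hg.eLpNorm_lt_top
    rw [eLpNorm_lt_top_iff_lintegral_rpow_enorm_lt_top (by norm_num) (by norm_num)] at h3
    simpa using h3.ne
  have ham : ∀ k, Measurable fun x : V => an r g x k := fun k =>
    (Q87.RA.pc_cont hg _ _).measurable
  have hGm : ∀ b, Measurable fun q : Ω × V => ‖Gb ξ (p + 1) (an r g q.2) b q.1‖ₑ ^ 2 := fun b =>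
    ((Gb_meas2 ξ hξ.meas (p + 1) (an r g) ham b).enorm).pow_const 2
  have hSm : Measurable fun x : V => ∑' b, ∫⁻ ω, ‖Gb ξ (p + 1) (an r g x) b ω‖ₑ ^ 2 ∂P :=
    Measurable.tsum fun b => (hGm b).lintegral_prod_left'
  have f2 : ∀ᵐ x : V, ∑' b, ∫⁻ ω, ‖Gb ξ (p + 1) (an r g x) b ω‖ₑ ^ 2 ∂P ≠ ⊤ := by
    refine Q87.RA.ae_finite hSm (ne_top_of_le_ne_top ?_ (G_sum P ξ hξ.meas hξ.le hL (p + 1) hl hg))
    exact ENNReal.mul_ne_top ENNReal.ofReal_ne_top hg2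
  have hcm : ∀ N k, Measurable fun x : V => cut N (an r g x) k := by
    intro N k
    unfold cut
    split_ifs
    · exact measurable_const
    · exact ham k
  have hIm : Measurable fun q : Ω × V => ⨅ N, mxg (Vb ξ (p + 1))
      (Gb ξ (p + 1) (cut (N * (p + 1)) (an r g q.2))) q.1 :=
    Measurable.iInf fun N => mxg_meas ξ hξ.meas (p + 1) (fun x => cut (N * (p + 1)) (an r g x))
      (hcm _)
  have h5 : ∫⁻ x : V, ∫⁻ ω, (⨅ N, mxg (Vb ξ (p + 1))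
      (Gb ξ (p + 1) (cut (N * (p + 1)) (an r g x))) ω) ∂P = 0 := by
    rw [lintegral_eq_zero_iff']
    · filter_upwards [f2] with x hx
      exact int_inf P ξ σ hξ p hp _ hx
    · exact (hIm.lintegral_prod_left').aemeasurable
  have h6 : ∫⁻ ω, (∫⁻ x : V, (⨅ N, mxg (Vb ξ (p + 1))
      (Gb ξ (p + 1) (cut (N * (p + 1)) (an r g x))) ω)) ∂P = 0 := by
    rw [lintegral_lintegral_swap hIm.aemeasurable]
    exact h5
  have h7 : ∀ᵐ ω ∂P, ∫⁻ x : V, (⨅ N, mxg (Vb ξ (p + 1))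
      (Gb ξ (p + 1) (cut (N * (p + 1)) (an r g x))) ω) = 0 := by
    have := (lintegral_eq_zero_iff (hIm.lintegral_prod_right')).1 h6
    exact this
  filter_upwards [h7] with ω hω
  have h8 : ∀ᵐ x : V, (⨅ N, mxg (Vb ξ (p + 1))
      (Gb ξ (p + 1) (cut (N * (p + 1)) (an r g x))) ω) = 0 := by
    have := (lintegral_eq_zero_iff (hIm.comp measurable_prodMk_left)).1 hω
    exact this
  set hh : V → ℂ := hb r ξ (p + 1) ω g with hhh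
  have hhm : MemLp hh 2 volume := hb_memLp hL ξ hξ.le (p + 1) ω hg
  have hh2 : ∫⁻ η, ‖hh η‖ₑ ^ 2 ≠ ⊤ := ne_top_of_le_ne_top hg2 (hb_sq_le hL ξ hξ.le (p + 1) ω g)
  have hMm : Measurable fun x : V => ∑' k, M hh (br r (p + 1) k) (br r (p + 1) (k + 1)) x ^ 2 :=
    Measurable.tsum fun k => (Q87.RA.M_meas hhm _ _).pow_const 2
  have f1 : ∀ᵐ x : V, ∑' k, M hh (br r (p + 1) k) (br r (p + 1) (k + 1)) x ^ 2 ≠ ⊤ := by
    refine Q87.RA.ae_finite hMm (ne_top_of_le_ne_top ?_ (Q87.RA.M_sum m h hhm))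
    exact ENNReal.mul_ne_top ENNReal.ofReal_ne_top hh2
  filter_upwards [h8, f1] with x hx1 hx2
  obtain ⟨z, hz⟩ := cauchy_of_inf ξ (p + 1) (an r g x) ω hx1
  refine ⟨z, ?_⟩
  have hM0 : Tendsto (fun k => M hh (br r (p + 1) k) (br r (p + 1) (k + 1)) x ^ 2) atTop (𝓝 0) :=
    ENNReal.tendsto_atTop_zero_of_tsum_ne_top hx2
  rw [Metric.tendsto_atTop]
  intro ε hε
  have e1 : ∀ᶠ n in atTop, dist (T (Vb ξ (p + 1)) (Gb ξ (p + 1) (an r g x)) n ω) z < ε / 2 :=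
    (Metric.tendsto_nhds.1 hz) (ε / 2) (half_pos hε)
  have e2 : ∀ᶠ k in atTop, M hh (br r (p + 1) k) (br r (p + 1) (k + 1)) x ^ 2 <
      ENNReal.ofReal (ε / 2) ^ 2 := by
    apply hM0.eventually_lt_const
    have : ENNReal.ofReal (ε / 2) ≠ 0 := by simpa using hε
    positivity
  obtain ⟨N, hN⟩ := (e1.and e2).exists_forall_of_atTop
  refine ⟨max 0 (br r (p + 1) N), fun R hR => ?_⟩
  obtain ⟨K, hK1, hK2⟩ := h.exists_idx ((le_max_left _ _).trans hR)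
  have hKN : N ≤ K := by
    by_contra hcon
    push Not at hcon
    have := h.mono (show K + 1 ≤ N from hcon)
    linarith [(le_max_right 0 (br r (p + 1) N)).trans hR]
  rw [rnd_X hL ξ (p + 1) hl, Q87.RA.decomp (fun b ω => W (Vb ξ (p + 1)) b ω)
    (W_le (Vb ξ (p + 1)) (Vb_le ξ hξ.le _)) h hhm ω x hK1 hK2.le,
    ps_T hL ξ hξ.le (p + 1) ω hg x K]
  obtain ⟨g1, g2⟩ := hN K hKN
  have g0 := W_le (Vb ξ (p + 1)) (Vb_le ξ hξ.le _) K ω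
  have g3 : ‖W (Vb ξ (p + 1)) K ω * pc hh (br r (p + 1) K) R x‖ < ε / 2 := by
    have g4 : ‖pc hh (br r (p + 1) K) R x‖ₑ < ENNReal.ofReal (ε / 2) :=
      (Q87.RA.chain hhm hK1 hK2.le x).trans_lt (Q87.RA.lt_of_sq_lt g2)
    rw [← ofReal_norm] at g4
    have g5 := (ENNReal.ofReal_lt_ofReal_iff (half_pos hε)).1 g4
    rw [norm_mul]
    nlinarith [norm_nonneg (pc hh (br r (p + 1) K) R x), norm_nonneg (W (Vb ξ (p + 1)) K ω)]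
  rw [dist_eq_norm] at g1 ⊢
  calc ‖T (Vb ξ (p + 1)) (Gb ξ (p + 1) (an r g x)) K ω +
        W (Vb ξ (p + 1)) K ω * pc hh (br r (p + 1) K) R x - z‖
      = ‖(T (Vb ξ (p + 1)) (Gb ξ (p + 1) (an r g x)) K ω - z) +
          W (Vb ξ (p + 1)) K ω * pc hh (br r (p + 1) K) R x‖ := by congr 1; ring
    _ ≤ ‖T (Vb ξ (p + 1)) (Gb ξ (p + 1) (an r g x)) K ω - z‖ +
          ‖W (Vb ξ (p + 1)) K ω * pc hh (br r (p + 1) K) R x‖ := norm_add_le _ _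
    _ < ε / 2 + ε / 2 := add_lt_add g1 g3
    _ = ε := by ring

end Q48.RW
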