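import Pool.Agent.Q48.RW.Blocks
import Pool.Agent.Q87.RA.Final

/-! Random walk multipliers on annuli: the maximal inequality on balls, and almost sure
convergence. -/

set_option autoImplicit false

namespace Q48.RW

open MeasureTheory ProbabilityTheory Filter Set Topology Metric
open scoped ENNReal NNReal RealInnerProductSpace
open Pool.Agent.Q261.ST (wt ph)
open Q87.RA (An pc M Radii rnd an mx ps C1 C1_nonneg)

variable {V : Type*} [NormedAddCommGroup V] [InnerProductSpace ℝ V] [FiniteDimensional ℝ V]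
  [MeasurableSpace V] [BorelSpace V]

/-- the radii of the blocks -/
def br (r : ℕ → ℝ) (l b : ℕ) : ℝ := r (b * l)

lemma gap_sum {r : ℕ → ℝ} {L : ℝ} (h : Radii r L) (j n : ℕ) : r (j + n) - r j ≤ n * L := by
  induction n with
  | zero => simp
  | succ n ih =>
    have := h.gap (j + n)
    rw [← add_assoc]
    push_cast
    linarith

lemma br_radii {r : ℕ → ℝ} {L : ℝ} (h : Radii r L) (l : ℕ) (hl : 0 < l) :
    Radii (br r l) (l * L) where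
  zero := by
    unfold br
    rw [zero_mul, h.zero]
  mono := fun i j hij => h.mono (Nat.mul_le_mul_right l hij)
  top := h.top.comp (tendsto_id.atTop_mul_const' hl)
  gap := fun k => by
    unfold br
    rw [Nat.succ_mul]
    exact gap_sum h (k * l) l

variable {Ω : Type*}

/-- the modulated function inside the blocks -/
noncomputable def hb (r : ℕ → ℝ) (ξ : ℕ → Ω → ℂ) (l : ℕ) (ω : Ω) (g : V → ℂ) : V → ℂ :=
  rnd r (fun k => Zb ξ l (k / l) (k % l) ω) g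

lemma rnd_X {r : ℕ → ℝ} {L : ℝ} (h : Radii r L) (ξ : ℕ → Ω → ℂ) (l : ℕ) (hl : 0 < l) (ω : Ω)
    (g : V → ℂ) : rnd r (fun k => X ξ k ω) g =
      rnd (br r l) (fun b => W (Vb ξ l) b ω) (hb r ξ l ω g) := by
  funext η
  obtain ⟨k, h1, h2⟩ := h.exists_idx (norm_nonneg η)
  rw [Q87.RA.rnd_eq h _ g ⟨h1, h2⟩, Q87.RA.rnd_eq (br_radii h l hl) _ _ (k := k / l), hb,
    Q87.RA.rnd_eq h _ g ⟨h1, h2⟩, X_eq ξ l k ω]
  · ring
  · constructor
    · refine le_trans ?_ h1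
      exact h.mono (Nat.div_mul_le_self k l)
    · refine h2.trans_le ?_
      refine h.mono ?_
      have := Nat.lt_div_mul_add (a := k) hl
      rw [Nat.succ_mul]
      omega

lemma hb_memLp {r : ℕ → ℝ} {L : ℝ} (h : Radii r L) (ξ : ℕ → Ω → ℂ) (hξ : ∀ k ω, ‖ξ k ω‖ ≤ 1)
    (l : ℕ) (ω : Ω) {g : V → ℂ} (hg : MemLp g 2 volume) : MemLp (hb r ξ l ω g) 2 volume :=
  Q87.RA.rnd_memLp h _ (fun _ => Zb_le ξ hξ _ _ _ ω) hg

lemma hb_sq_le {r : ℕ → ℝ} {L : ℝ} (h : Radii r L) (ξ : ℕ → Ω → ℂ) (hξ : ∀ k ω, ‖ξ k ω‖ ≤ 1)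
    (l : ℕ) (ω : Ω) (g : V → ℂ) : ∫⁻ η, ‖hb r ξ l ω g η‖ₑ ^ 2 ≤ ∫⁻ η, ‖g η‖ₑ ^ 2 := by
  refine lintegral_mono fun η => pow_le_pow_left₀ zero_le ?_ 2
  rw [← ofReal_norm, ← ofReal_norm]
  exact ENNReal.ofReal_le_ofReal (Q87.RA.rnd_norm_le h _ (fun _ => Zb_le ξ hξ _ _ _ ω) g η)

lemma pc_run {r : ℕ → ℝ} {L : ℝ} (h : Radii r L) (c : ℕ → ℂ) (hc : ∀ k, ‖c k‖ ≤ 1)
    {g : V → ℂ} (hg : MemLp g 2 volume) (j n : ℕ) (x : V) :
    pc (rnd r c g) (r j) (r (j + n)) x = ∑ i ∈ Finset.range n, c (j + i) * an r g x (j + i) := by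
  induction n with
  | zero =>
    rw [add_zero, Q87.RA.pc_self _ _ le_rfl]
    simp
  | succ n ih =>
    rw [Q87.RA.pc_add (Q87.RA.rnd_memLp h c hc hg) x (h.mono (Nat.le_add_right j n))
      (h.mono (show j + n ≤ j + (n + 1) by omega)), ih, Finset.sum_range_succ,
      ← add_assoc, Q87.RA.pc_rnd h c g (j + n) le_rfl x]
    rfl

lemma an_block {r : ℕ → ℝ} {L : ℝ} (h : Radii r L) (ξ : ℕ → Ω → ℂ) (hξ : ∀ k ω, ‖ξ k ω‖ ≤ 1)
    (l : ℕ) (ω : Ω) {g : V → ℂ} (hg : MemLp g 2 volume) (x : V) (b : ℕ) :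
    an (br r l) (hb r ξ l ω g) x b = Gb ξ l (an r g x) b ω := by
  unfold an br hb
  rw [Nat.succ_mul, pc_run h _ (fun _ => Zb_le ξ hξ _ _ _ ω) hg]
  unfold Gb
  refine Finset.sum_congr rfl fun i hi => ?_
  have hi' := Finset.mem_range.1 hi
  have hl : 0 < l := by omega
  have e1 : (b * l + i) / l = b := by
    rw [mul_comm, Nat.mul_add_div hl, Nat.div_eq_of_lt hi', add_zero]
  have e2 : (b * l + i) % l = i := by
    rw [mul_comm, Nat.mul_add_mod, Nat.mod_eq_of_lt hi']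
  rw [e1, e2]
  rfl

lemma ps_T {r : ℕ → ℝ} {L : ℝ} (h : Radii r L) (ξ : ℕ → Ω → ℂ) (hξ : ∀ k ω, ‖ξ k ω‖ ≤ 1)
    (l : ℕ) (ω : Ω) {g : V → ℂ} (hg : MemLp g 2 volume) (x : V) (n : ℕ) :
    ps (fun b ω => W (Vb ξ l) b ω) (an (br r l) (hb r ξ l ω g) x) n ω =
      T (Vb ξ l) (Gb ξ l (an r g x)) n ω := by
  unfold ps T
  refine Finset.sum_congr rfl fun b _ => ?_
  rw [an_block h ξ hξ l ω hg]

lemma mx_eq {r : ℕ → ℝ} {L : ℝ} (h : Radii r L) (ξ : ℕ → Ω → ℂ) (hξ : ∀ k ω, ‖ξ k ω‖ ≤ 1)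
    (l : ℕ) (ω : Ω) {g : V → ℂ} (hg : MemLp g 2 volume) (x : V) :
    mx (fun b ω => W (Vb ξ l) b ω) (an (br r l) (hb r ξ l ω g) x) ω =
      mxg (Vb ξ l) (Gb ξ l (an r g x)) ω := by
  unfold mx mxg
  congr 1
  funext n
  rw [ps_T h ξ hξ l ω hg x n]

/-- the pointwise majorant -/
theorem pointwise2 {r : ℕ → ℝ} {L : ℝ} (h : Radii r L) (ξ : ℕ → Ω → ℂ) (hξ : ∀ k ω, ‖ξ k ω‖ ≤ 1)
    (l : ℕ) (hl : 0 < l) (ω : Ω) {g : V → ℂ} (hg : MemLp g 2 volume) (x : V) (R : ℝ) :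
    ‖pc (rnd r (fun k => X ξ k ω) g) 0 R x‖ₑ ^ 2 ≤
      2 * mxg (Vb ξ l) (Gb ξ l (an r g x)) ω +
      2 * ∑' b, M (hb r ξ l ω g) (br r l b) (br r l (b + 1)) x ^ 2 := by
  rw [rnd_X h ξ l hl, ← mx_eq h ξ hξ l ω hg x]
  exact Q87.RA.pointwise (fun b ω => W (Vb ξ l) b ω) (W_le (Vb ξ l) (Vb_le ξ hξ l))
    (br_radii h l hl) (hb_memLp h ξ hξ l ω hg) ω x R

variable [MeasurableSpace Ω]

omit [NormedAddCommGroup V] [InnerProductSpace ℝ V] [FiniteDimensional ℝ V] [BorelSpace V] in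
lemma Gb_meas2 (ξ : ℕ → Ω → ℂ) (hξm : ∀ k, Measurable (ξ k)) (l : ℕ) (a : V → ℕ → ℂ)
    (ha : ∀ k, Measurable fun x => a x k) (b : ℕ) :
    Measurable fun p : Ω × V => Gb ξ l (a p.2) b p.1 := by
  unfold Gb
  refine Finset.measurable_sum _ fun i _ => ?_
  exact ((Zb_meas _ ξ l b i fun _ _ => hξm _).comp measurable_fst).mul ((ha _).comp measurable_snd)

omit [NormedAddCommGroup V] [InnerProductSpace ℝ V] [FiniteDimensional ℝ V] [BorelSpace V] in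
lemma mxg_meas (ξ : ℕ → Ω → ℂ) (hξm : ∀ k, Measurable (ξ k)) (l : ℕ) (a : V → ℕ → ℂ)
    (ha : ∀ k, Measurable fun x => a x k) :
    Measurable fun p : Ω × V => mxg (Vb ξ l) (Gb ξ l (a p.2)) p.1 := by
  unfold mxg
  refine Measurable.iSup fun n => ?_
  unfold T
  refine (Measurable.enorm ?_).pow_const 2
  refine Finset.measurable_sum _ fun b _ => ?_
  exact ((W_meas _ (Vb ξ l) b fun k _ => Vb_meas _ ξ l k fun _ _ => hξm _).comp measurable_fst).mul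
    (Gb_meas2 ξ hξm l a ha b)

/-- the square function of the blocks -/
theorem G_sum [Nontrivial V] (P : Measure Ω) [IsProbabilityMeasure P] (ξ : ℕ → Ω → ℂ)
    (hξm : ∀ k, Measurable (ξ k)) (hξ : ∀ k ω, ‖ξ k ω‖ ≤ 1) {r : ℕ → ℝ} {L : ℝ} (h : Radii r L)
    (l : ℕ) (hl : 0 < l) {g : V → ℂ} (hg : MemLp g 2 volume) :
    ∫⁻ x : V, (∑' b, ∫⁻ ω, ‖Gb ξ l (an r g x) b ω‖ₑ ^ 2 ∂P) * ENNReal.ofReal (wt x) ≤
      ENNReal.ofReal (C1 V) * ∫⁻ η, ‖g η‖ₑ ^ 2 := by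
  have hwm : Measurable fun x : V => ENNReal.ofReal (wt x) :=
    Pool.Agent.Q261.ST.continuous_wt.measurable.ennreal_ofReal
  have ham : ∀ k, Measurable fun x : V => an r g x k := fun k =>
    (Q87.RA.pc_cont hg _ _).measurable
  have hGm : ∀ b, Measurable fun p : Ω × V => ‖Gb ξ l (an r g p.2) b p.1‖ₑ ^ 2 := fun b =>
    ((Gb_meas2 ξ hξm l (an r g) ham b).enorm).pow_const 2
  have hGs : Measurable fun p : Ω × V => (∑' b, ‖Gb ξ l (an r g p.2) b p.1‖ₑ ^ 2) *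
      ENNReal.ofReal (wt p.2) :=
    (Measurable.tsum hGm).mul (hwm.comp measurable_snd)
  calc ∫⁻ x : V, (∑' b, ∫⁻ ω, ‖Gb ξ l (an r g x) b ω‖ₑ ^ 2 ∂P) * ENNReal.ofReal (wt x)
      = ∫⁻ x : V, ∫⁻ ω, (∑' b, ‖Gb ξ l (an r g x) b ω‖ₑ ^ 2) * ENNReal.ofReal (wt x) ∂P := by
        refine lintegral_congr fun x => ?_
        rw [lintegral_mul_const' _ _ ENNReal.ofReal_ne_top, lintegral_tsum]
        intro b
        exact ((hGm b).comp measurable_prodMk_right).aemeasurable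
    _ = ∫⁻ ω, (∫⁻ x : V, (∑' b, ‖Gb ξ l (an r g x) b ω‖ₑ ^ 2) * ENNReal.ofReal (wt x)) ∂P :=
        (lintegral_lintegral_swap hGs.aemeasurable).symm
    _ ≤ ∫⁻ _ω, (ENNReal.ofReal (C1 V) * ∫⁻ η, ‖g η‖ₑ ^ 2) ∂P := by
        refine lintegral_mono fun ω => ?_
        have h1 := Q87.RA.an_sum (br_radii h l hl) (hb_memLp h ξ hξ l ω hg)
        have h2 : ∀ x, (∑' b, ‖Gb ξ l (an r g x) b ω‖ₑ ^ 2) =
            ∑' b, ‖an (br r l) (hb r ξ l ω g) x b‖ₑ ^ 2 := fun x => by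
          congr 1
          funext b
          rw [an_block h ξ hξ l ω hg]
        simp_rw [h2]
        exact h1.trans (mul_le_mul' le_rfl (hb_sq_le h ξ hξ l ω g))
    _ = _ := by simp

/-- the maximal inequality with the Gaussian weight -/
theorem weighted2 [Nontrivial V] (P : Measure Ω) [IsProbabilityMeasure P] (ξ : ℕ → Ω → ℂ) (σ : ℝ)
    (hξ : Hyp P ξ σ) (p : ℕ) (hp : (1 - σ) ^ p ≤ 1 / 2) {r : ℕ → ℝ} {L : ℝ} (h : Radii r L)
    (m : ℕ) (hm : ((p + 1 : ℕ) : ℝ) * L ≤ 2 ^ m) {g : V → ℂ} (hg : MemLp g 2 volume) :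
    ∫⁻ ω, (∫⁻ x : V, (⨆ R : ℝ, ‖pc (rnd r (fun k => X ξ k ω) g) 0 R x‖ₑ) ^ 2 *
      ENNReal.ofReal (wt x)) ∂P ≤
      ENNReal.ofReal (706 * C1 V * (m + 4) ^ 2) * ∫⁻ η, ‖g η‖ₑ ^ 2 := by
  have hl : 0 < p + 1 := Nat.succ_pos p
  have hwm : Measurable fun x : V => ENNReal.ofReal (wt x) :=
    Pool.Agent.Q261.ST.continuous_wt.measurable.ennreal_ofReal
  have ham : ∀ k, Measurable fun x : V => an r g x k := fun k =>
    (Q87.RA.pc_cont hg _ _).measurable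
  have hmm : Measurable fun q : Ω × V => mxg (Vb ξ (p + 1)) (Gb ξ (p + 1) (an r g q.2)) q.1 :=
    mxg_meas ξ hξ.meas _ _ ham
  have hr : Radii (br r (p + 1)) (2 ^ m) := by
    have := br_radii h (p + 1) hl
    exact ⟨this.zero, this.mono, this.top, fun k => (this.gap k).trans hm⟩
  have hMm : ∀ ω, Measurable fun x : V => ∑' b, M (hb r ξ (p + 1) ω g) (br r (p + 1) b)
      (br r (p + 1) (b + 1)) x ^ 2 := fun ω =>
    Measurable.tsum fun k => (Q87.RA.M_meas (hb_memLp h ξ hξ.le (p + 1) ω hg) _ _).pow_const 2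
  have h1 : ∀ ω (x : V), (⨆ R : ℝ, ‖pc (rnd r (fun k => X ξ k ω) g) 0 R x‖ₑ) ^ 2 ≤
      2 * mxg (Vb ξ (p + 1)) (Gb ξ (p + 1) (an r g x)) ω +
      2 * ∑' b, M (hb r ξ (p + 1) ω g) (br r (p + 1) b) (br r (p + 1) (b + 1)) x ^ 2 := by
    intro ω x
    set E : ℝ≥0∞ := 2 * mxg (Vb ξ (p + 1)) (Gb ξ (p + 1) (an r g x)) ω +
      2 * ∑' b, M (hb r ξ (p + 1) ω g) (br r (p + 1) b) (br r (p + 1) (b + 1)) x ^ 2 with hE
    have h2 : (⨆ R : ℝ, ‖pc (rnd r (fun k => X ξ k ω) g) 0 R x‖ₑ) ≤ E ^ (1 / 2 : ℝ) := by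
      refine iSup_le fun R => ?_
      have h3 := pointwise2 h ξ hξ.le (p + 1) hl ω hg x R
      calc ‖pc (rnd r (fun k => X ξ k ω) g) 0 R x‖ₑ
          = (‖pc (rnd r (fun k => X ξ k ω) g) 0 R x‖ₑ ^ 2) ^ (1 / 2 : ℝ) := by
            rw [← ENNReal.rpow_natCast, ← ENNReal.rpow_mul]
            norm_num
        _ ≤ _ := ENNReal.rpow_le_rpow h3 (by norm_num)
    calc _ ≤ (E ^ (1 / 2 : ℝ)) ^ 2 := by
          gcongr
      _ = _ := by
          rw [← ENNReal.rpow_natCast, ← ENNReal.rpow_mul]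
          norm_num
  have hMb : ∀ ω, ∫⁻ x : V, (∑' b, M (hb r ξ (p + 1) ω g) (br r (p + 1) b)
      (br r (p + 1) (b + 1)) x ^ 2) * ENNReal.ofReal (wt x) ≤
      ENNReal.ofReal (C1 V * (m + 4) ^ 2) * ∫⁻ η, ‖g η‖ₑ ^ 2 := fun ω =>
    (Q87.RA.M_sum m hr (hb_memLp h ξ hξ.le (p + 1) ω hg)).trans
      (mul_le_mul' le_rfl (hb_sq_le h ξ hξ.le (p + 1) ω g))
  calc ∫⁻ ω, (∫⁻ x : V, (⨆ R : ℝ, ‖pc (rnd r (fun k => X ξ k ω) g) 0 R x‖ₑ) ^ 2 *
        ENNReal.ofReal (wt x)) ∂P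
      ≤ ∫⁻ ω, (2 * (∫⁻ x : V, mxg (Vb ξ (p + 1)) (Gb ξ (p + 1) (an r g x)) ω *
          ENNReal.ofReal (wt x)) + 2 * (ENNReal.ofReal (C1 V * (m + 4) ^ 2) *
            ∫⁻ η, ‖g η‖ₑ ^ 2)) ∂P := by
        refine lintegral_mono fun ω => ?_
        calc ∫⁻ x : V, (⨆ R : ℝ, ‖pc (rnd r (fun k => X ξ k ω) g) 0 R x‖ₑ) ^ 2 *
                ENNReal.ofReal (wt x)
            ≤ ∫⁻ x : V, (2 * (mxg (Vb ξ (p + 1)) (Gb ξ (p + 1) (an r g x)) ω *
                ENNReal.ofReal (wt x)) +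
              2 * ((∑' b, M (hb r ξ (p + 1) ω g) (br r (p + 1) b) (br r (p + 1) (b + 1)) x ^ 2) *
                ENNReal.ofReal (wt x))) := by
              refine lintegral_mono fun x => ?_
              refine (mul_le_mul' (h1 ω x) le_rfl).trans (le_of_eq ?_)
              ring
          _ = 2 * (∫⁻ x : V, mxg (Vb ξ (p + 1)) (Gb ξ (p + 1) (an r g x)) ω *
                ENNReal.ofReal (wt x)) +
              2 * ∫⁻ x : V, (∑' b, M (hb r ξ (p + 1) ω g) (br r (p + 1) b)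
                (br r (p + 1) (b + 1)) x ^ 2) * ENNReal.ofReal (wt x) := by
              have hm2 : Measurable fun x : V => 2 * ((∑' b, M (hb r ξ (p + 1) ω g)
                (br r (p + 1) b) (br r (p + 1) (b + 1)) x ^ 2) * ENNReal.ofReal (wt x)) :=
                ((hMm ω).mul hwm).const_mul 2
              rw [lintegral_add_right _ hm2, lintegral_const_mul' _ _ ENNReal.ofNat_ne_top,
                lintegral_const_mul' _ _ ENNReal.ofNat_ne_top]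
          _ ≤ _ := by
              gcongr
              exact hMb ω
    _ = 2 * (∫⁻ ω, (∫⁻ x : V, mxg (Vb ξ (p + 1)) (Gb ξ (p + 1) (an r g x)) ω *
          ENNReal.ofReal (wt x)) ∂P) + 2 * (ENNReal.ofReal (C1 V * (m + 4) ^ 2) *
            ∫⁻ η, ‖g η‖ₑ ^ 2) := by
        rw [lintegral_add_right _ measurable_const, lintegral_const_mul' _ _ ENNReal.ofNat_ne_top,
          lintegral_const]
        simp
    _ ≤ 2 * (352 * (ENNReal.ofReal (C1 V) * ∫⁻ η, ‖g η‖ₑ ^ 2)) +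
        2 * (ENNReal.ofReal (C1 V * (m + 4) ^ 2) * ∫⁻ η, ‖g η‖ₑ ^ 2) := by
        gcongr
        rw [lintegral_lintegral_swap (hmm.mul (hwm.comp measurable_snd)).aemeasurable]
        calc ∫⁻ x : V, ∫⁻ ω, mxg (Vb ξ (p + 1)) (Gb ξ (p + 1) (an r g x)) ω *
                ENNReal.ofReal (wt x) ∂P
            = ∫⁻ x : V, (∫⁻ ω, mxg (Vb ξ (p + 1)) (Gb ξ (p + 1) (an r g x)) ω ∂P) *
                ENNReal.ofReal (wt x) := by
              refine lintegral_congr fun x => ?_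
              rw [lintegral_mul_const' _ _ ENNReal.ofReal_ne_top]
          _ ≤ ∫⁻ x : V, (352 * ∑' b, ∫⁻ ω, ‖Gb ξ (p + 1) (an r g x) b ω‖ₑ ^ 2 ∂P) *
                ENNReal.ofReal (wt x) := by
              refine lintegral_mono fun x => mul_le_mul' ?_ le_rfl
              exact renewal P _ _ _ (blk P ξ σ hξ p hp (an r g x))
          _ = 352 * ∫⁻ x : V, (∑' b, ∫⁻ ω, ‖Gb ξ (p + 1) (an r g x) b ω‖ₑ ^ 2 ∂P) *
                ENNReal.ofReal (wt x) := by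
              rw [← lintegral_const_mul' _ _ ENNReal.ofNat_ne_top]
              refine lintegral_congr fun x => ?_
              ring
          _ ≤ _ := mul_le_mul' le_rfl (G_sum P ξ hξ.meas hξ.le h (p + 1) hl hg)
    _ ≤ ENNReal.ofReal (706 * C1 V * (m + 4) ^ 2) * ∫⁻ η, ‖g η‖ₑ ^ 2 := by
        have hC := C1_nonneg (V := V)
        have e2 : ENNReal.ofReal (706 * C1 V * (m + 4) ^ 2) =
            704 * ENNReal.ofReal (C1 V * (m + 4) ^ 2) + 2 * ENNReal.ofReal (C1 V * (m + 4) ^ 2) := by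
          rw [← add_mul, show (704 : ℝ≥0∞) + 2 = ENNReal.ofReal 706 by norm_num,
            ← ENNReal.ofReal_mul (by norm_num)]
          congr 1
          ring
        rw [e2, add_mul]
        refine add_le_add ?_ (le_of_eq (by ring))
        have e3 : ENNReal.ofReal (C1 V) ≤ ENNReal.ofReal (C1 V * (m + 4) ^ 2) := by
          apply ENNReal.ofReal_le_ofReal
          have : (1 : ℝ) ≤ (m + 4) ^ 2 := by
            have : (0 : ℝ) ≤ m := Nat.cast_nonneg m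
            nlinarith
          nlinarith
        calc 2 * (352 * (ENNReal.ofReal (C1 V) * ∫⁻ η, ‖g η‖ₑ ^ 2)) =
              704 * ENNReal.ofReal (C1 V) * ∫⁻ η, ‖g η‖ₑ ^ 2 := by ring
          _ ≤ _ := by gcongr

end Q48.RW
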