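import Pool.Agent.Q87.RA.Doob

/-! Doob's maximal inequality for the sums `∑ W_k δ_k`, where `δ_k` is centred and independent of
the past and `W_k` depends on the past only. -/

set_option autoImplicit false

namespace Q48.RW

open MeasureTheory ProbabilityTheory Filter
open scoped ENNReal
open Q87.RA (run le_run run_mono run_nonneg run_le path_sq)

/-- the inner estimate -/
lemma inner (ν : Measure ℂ) [IsProbabilityMeasure ν] (D : ℝ) (hν : ∀ᵐ z ∂ν, ‖z‖ ≤ D)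
    (h0 : ∫ z, z ∂ν = 0) (u w : ℂ) (hw : ‖w‖ ≤ 1) (m : ℝ) (hm : 0 ≤ m) :
    ∫ z, (4 * (‖u + w * z‖ ^ 2 - ‖u‖ ^ 2) - 4 * (m * (‖u + w * z‖ - ‖u‖))) ∂ν ≤
      4 * ∫ z, ‖z‖ ^ 2 ∂ν := by
  have hidm : AEStronglyMeasurable (fun z : ℂ => z) ν := continuous_id.aestronglyMeasurable
  have hid : Integrable (fun z : ℂ => z) ν := by
    refine (integrable_const (D : ℝ)).mono' hidm ?_
    filter_upwards [hν] with z hz
    simpa using hz
  have hlin : Integrable (fun z : ℂ => u + w * z) ν := (integrable_const u).add (hid.const_mul w)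
  have hlinn : Integrable (fun z : ℂ => ‖u + w * z‖) ν := hlin.norm
  have hn2 : Integrable (fun z : ℂ => ‖z‖ ^ 2) ν := by
    refine (integrable_const (D ^ 2)).mono' (Continuous.aestronglyMeasurable (by fun_prop)) ?_
    filter_upwards [hν] with z hz
    rw [Real.norm_of_nonneg (by positivity)]
    exact pow_le_pow_left₀ (norm_nonneg _) hz 2
  have hsq : Integrable (fun z : ℂ => ‖u + w * z‖ ^ 2) ν := by
    refine (integrable_const ((‖u‖ + D) ^ 2)).mono' (Continuous.aestronglyMeasurable (by fun_prop)) ?_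
    filter_upwards [hν] with z hz
    rw [Real.norm_of_nonneg (by positivity)]
    refine pow_le_pow_left₀ (norm_nonneg _) ?_ 2
    refine (norm_add_le _ _).trans ?_
    rw [norm_mul]
    nlinarith [norm_nonneg z, norm_nonneg u, norm_nonneg w]
  have h1 : ‖u‖ ≤ ∫ z, ‖u + w * z‖ ∂ν := by
    have h2 : ∫ z, (u + w * z) ∂ν = u := by
      rw [integral_add (integrable_const u) (hid.const_mul w), integral_const_mul, h0]
      simp
    calc ‖u‖ = ‖∫ z, (u + w * z) ∂ν‖ := by rw [h2]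
      _ ≤ _ := norm_integral_le_integral_norm _
  have h3 : ∫ z, ‖u + w * z‖ ^ 2 ∂ν ≤ ‖u‖ ^ 2 + ∫ z, ‖z‖ ^ 2 ∂ν := by
    have e : ∀ z : ℂ, ‖u + w * z‖ ^ 2 = ‖u‖ ^ 2 + 2 * ((z * (w * (starRingEnd ℂ) u)).re) +
        ‖w‖ ^ 2 * ‖z‖ ^ 2 := by
      intro z
      rw [← Complex.normSq_eq_norm_sq, Complex.normSq_add, Complex.normSq_eq_norm_sq,
        Complex.normSq_eq_norm_sq, norm_mul]
      have : (u * (starRingEnd ℂ) (w * z)).re = (z * (w * (starRingEnd ℂ) u)).re := by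
        simp only [map_mul, Complex.mul_re, Complex.mul_im, Complex.conj_re, Complex.conj_im]
        ring
      rw [this]
      ring
    have hre : Integrable (fun z : ℂ => (z * (w * (starRingEnd ℂ) u)).re) ν :=
      (hid.mul_const (w * (starRingEnd ℂ) u)).re
    have hz2 : ∫ z, (z * (w * (starRingEnd ℂ) u)).re ∂ν = 0 := by
      have h4 := integral_re (hid.mul_const (w * (starRingEnd ℂ) u))
      have h5 : ∫ z, z * (w * (starRingEnd ℂ) u) ∂ν = 0 := by
        rw [integral_mul_const, h0, zero_mul]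
      rw [h5] at h4
      simpa using h4
    simp_rw [e]
    have hi4 : Integrable (fun z : ℂ => 2 * (z * (w * (starRingEnd ℂ) u)).re) ν := hre.const_mul 2
    have hi5 : Integrable (fun z : ℂ => ‖u‖ ^ 2 + 2 * (z * (w * (starRingEnd ℂ) u)).re) ν :=
      (integrable_const _).add hi4
    rw [integral_add hi5 (hn2.const_mul _), integral_add (integrable_const _) hi4,
      integral_const_mul, hz2, integral_const_mul]
    have h6 : 0 ≤ ∫ z, ‖z‖ ^ 2 ∂ν := integral_nonneg fun z => by positivity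
    have h7 : ‖w‖ ^ 2 ≤ 1 := pow_le_one₀ (norm_nonneg _) hw
    simp only [integral_const, probReal_univ, smul_eq_mul, one_mul, mul_zero, add_zero]
    nlinarith
  have hi1 : Integrable (fun z : ℂ => 4 * (‖u + w * z‖ ^ 2 - ‖u‖ ^ 2)) ν :=
    (hsq.sub (integrable_const _)).const_mul 4
  have hi2 : Integrable (fun z : ℂ => 4 * (m * (‖u + w * z‖ - ‖u‖))) ν :=
    ((hlinn.sub (integrable_const _)).const_mul m).const_mul 4
  rw [integral_sub hi1 hi2, integral_const_mul, integral_const_mul, integral_const_mul,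
    integral_sub hsq (integrable_const _), integral_sub hlinn (integrable_const _)]
  simp only [integral_const, probReal_univ, smul_eq_mul, one_mul]
  nlinarith [mul_nonneg hm (sub_nonneg.2 h1)]

variable {Ω : Type*} [m0 : MeasurableSpace Ω]

/-- the weights -/
noncomputable def W (V : ℕ → Ω → ℂ) (n : ℕ) (ω : Ω) : ℂ := ∏ j ∈ Finset.range n, V j ω

/-- the partial sums -/
noncomputable def T (V d : ℕ → Ω → ℂ) (n : ℕ) (ω : Ω) : ℂ :=
  ∑ k ∈ Finset.range n, W V k ω * d k ω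

/-- the running maximum -/
noncomputable def rm (V d : ℕ → Ω → ℂ) (n : ℕ) (ω : Ω) : ℝ := run (fun k => ‖T V d k ω‖) n

omit m0 in
lemma W_zero (V : ℕ → Ω → ℂ) (ω : Ω) : W V 0 ω = 1 := by simp [W]

omit m0 in
lemma W_succ (V : ℕ → Ω → ℂ) (n : ℕ) (ω : Ω) : W V (n + 1) ω = W V n ω * V n ω := by
  unfold W
  rw [Finset.prod_range_succ]

omit m0 in
lemma T_zero (V d : ℕ → Ω → ℂ) (ω : Ω) : T V d 0 ω = 0 := by simp [T]

omit m0 in
lemma T_succ (V d : ℕ → Ω → ℂ) (n : ℕ) (ω : Ω) : T V d (n + 1) ω = T V d n ω + W V n ω * d n ω := by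
  unfold T
  rw [Finset.sum_range_succ]

omit m0 in
lemma W_le (V : ℕ → Ω → ℂ) (hV : ∀ k ω, ‖V k ω‖ ≤ 1) (n : ℕ) (ω : Ω) : ‖W V n ω‖ ≤ 1 := by
  unfold W
  rw [norm_prod]
  exact Finset.prod_le_one (fun _ _ => norm_nonneg _) fun k _ => hV k ω

omit m0 in
lemma T_le (V d : ℕ → Ω → ℂ) (hV : ∀ k ω, ‖V k ω‖ ≤ 1) (D : ℕ → ℝ) (hD : ∀ k ω, ‖d k ω‖ ≤ D k)
    (n : ℕ) (ω : Ω) : ‖T V d n ω‖ ≤ ∑ k ∈ Finset.range n, D k := by
  unfold T
  refine (norm_sum_le _ _).trans (Finset.sum_le_sum fun k _ => ?_)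
  rw [norm_mul]
  have h1 := W_le V hV k ω
  have h2 := hD k ω
  nlinarith [norm_nonneg (W V k ω), norm_nonneg (d k ω)]

omit m0 in
lemma rm_nonneg (V d : ℕ → Ω → ℂ) (n : ℕ) (ω : Ω) : 0 ≤ rm V d n ω :=
  run_nonneg _ (fun _ => norm_nonneg _) n

omit m0 in
lemma rm_le (V d : ℕ → Ω → ℂ) (hV : ∀ k ω, ‖V k ω‖ ≤ 1) (D : ℕ → ℝ) (hD0 : ∀ k, 0 ≤ D k)
    (hD : ∀ k ω, ‖d k ω‖ ≤ D k) (n : ℕ) (ω : Ω) : rm V d n ω ≤ ∑ k ∈ Finset.range n, D k := by
  refine run_le _ _ _ fun k hk => (T_le V d hV D hD k ω).trans ?_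
  exact Finset.sum_le_sum_of_subset_of_nonneg (Finset.range_mono hk) fun _ _ _ => hD0 _

omit m0 in
lemma W_meas (m : MeasurableSpace Ω) (V : ℕ → Ω → ℂ) (n : ℕ)
    (hV : ∀ k < n, Measurable[m] (V k)) : Measurable[m] (W V n) := by
  unfold W
  exact Finset.measurable_prod _ fun k hk => hV k (Finset.mem_range.1 hk)

omit m0 in
lemma T_meas (m : MeasurableSpace Ω) (V d : ℕ → Ω → ℂ) (n : ℕ)
    (hV : ∀ k < n, Measurable[m] (V k)) (hd : ∀ k < n, Measurable[m] (d k)) :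
    Measurable[m] (T V d n) := by
  unfold T
  refine Finset.measurable_sum _ fun k hk => ?_
  have hk' := Finset.mem_range.1 hk
  exact (W_meas m V k fun j hj => hV j (hj.trans hk')).mul (hd k hk')

omit m0 in
lemma rm_meas (m : MeasurableSpace Ω) (V d : ℕ → Ω → ℂ) (n : ℕ)
    (hV : ∀ k < n, Measurable[m] (V k)) (hd : ∀ k < n, Measurable[m] (d k)) :
    Measurable[m] (rm V d n) := by
  induction n with
  | zero =>
    have : rm V d 0 = fun ω => ‖T V d 0 ω‖ := rfl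
    rw [this]
    exact (T_meas m V d 0 hV hd).norm
  | succ n ih =>
    have : rm V d (n + 1) = fun ω => max (rm V d n ω) ‖T V d (n + 1) ω‖ := rfl
    rw [this]
    exact (ih (fun k hk => hV k (hk.trans (Nat.lt_succ_self n)))
      fun k hk => hd k (hk.trans (Nat.lt_succ_self n))).max (T_meas m V d (n + 1) hV hd).norm

/-- martingale differences `δ_k`, with bounded multipliers `V_k` -/
structure Mart (P : Measure Ω) (F : ℕ → MeasurableSpace Ω) (V d : ℕ → Ω → ℂ) (D : ℕ → ℝ) :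
    Prop where
  vm : ∀ k, Measurable (V k)
  dm : ∀ k, Measurable (d k)
  vF : ∀ n, ∀ k < n, Measurable[F n] (V k)
  dF : ∀ n, ∀ k < n, Measurable[F n] (d k)
  ind : ∀ n, Indep (F n) (MeasurableSpace.comap (d n) inferInstance) P
  vb : ∀ k ω, ‖V k ω‖ ≤ 1
  D0 : ∀ k, 0 ≤ D k
  db : ∀ k ω, ‖d k ω‖ ≤ D k
  mean : ∀ k, ∫ ω, d k ω ∂P = 0

/-- one step of the recursion -/
theorem step (P : Measure Ω) [IsProbabilityMeasure P] (F : ℕ → MeasurableSpace Ω)
    (V d : ℕ → Ω → ℂ) (D : ℕ → ℝ) (h : Mart P F V d D) (n : ℕ) :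
    ∫ ω, (4 * (‖T V d (n + 1) ω‖ ^ 2 - ‖T V d n ω‖ ^ 2) -
      4 * (rm V d n ω * (‖T V d (n + 1) ω‖ - ‖T V d n ω‖))) ∂P ≤ 4 * ∫ ω, ‖d n ω‖ ^ 2 ∂P := by
  have hind : IndepFun (fun ω => (rm V d n ω, T V d n ω, W V n ω)) (d n) P := by
    have hle : MeasurableSpace.comap (fun ω => (rm V d n ω, T V d n ω, W V n ω)) inferInstance ≤
        F n := by
      rw [← measurable_iff_comap_le]
      exact (rm_meas _ V d n (h.vF n) (h.dF n)).prodMk ((T_meas _ V d n (h.vF n) (h.dF n)).prodMk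
        (W_meas _ V n (h.vF n)))
    rw [IndepFun_iff_Indep]
    exact indep_of_indep_of_le_left (h.ind n) hle
  have hUm : Measurable (fun ω => (rm V d n ω, T V d n ω, W V n ω)) :=
    (rm_meas _ V d n (fun k _ => h.vm k) (fun k _ => h.dm k)).prodMk
      ((T_meas _ V d n (fun k _ => h.vm k) (fun k _ => h.dm k)).prodMk
        (W_meas _ V n (fun k _ => h.vm k)))
  have hdm := h.dm n
  have hmap := (indepFun_iff_map_prod_eq_prod_map_map hUm.aemeasurable hdm.aemeasurable).1 hind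
  set κ : Measure (ℝ × ℂ × ℂ) := P.map (fun ω => (rm V d n ω, T V d n ω, W V n ω)) with hκ
  set ν : Measure ℂ := P.map (d n) with hν
  have : IsProbabilityMeasure κ := Measure.isProbabilityMeasure_map hUm.aemeasurable
  have : IsProbabilityMeasure ν := Measure.isProbabilityMeasure_map hdm.aemeasurable
  set φ : (ℝ × ℂ × ℂ) × ℂ → ℝ := fun p => 4 * (‖p.1.2.1 + p.1.2.2 * p.2‖ ^ 2 - ‖p.1.2.1‖ ^ 2) -
    4 * (p.1.1 * (‖p.1.2.1 + p.1.2.2 * p.2‖ - ‖p.1.2.1‖)) with hφ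
  have hφc : Continuous φ := by
    rw [hφ]
    fun_prop
  have hνn : ∀ᵐ z ∂ν, ‖z‖ ≤ D n := by
    rw [hν, ae_map_iff hdm.aemeasurable (by measurability)]
    exact Eventually.of_forall (h.db n)
  have hν0 : ∫ z, z ∂ν = 0 := by
    have h3 := integral_map hdm.aemeasurable (f := fun z : ℂ => z) (μ := P)
      continuous_id.aestronglyMeasurable
    rw [hν, h3]
    exact h.mean n
  have hν2 : ∫ z, ‖z‖ ^ 2 ∂ν = ∫ ω, ‖d n ω‖ ^ 2 ∂P :=
    integral_map hdm.aemeasurable (f := fun z : ℂ => ‖z‖ ^ 2) (μ := P)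
      (Continuous.aestronglyMeasurable (by fun_prop))
  set B : ℝ := ∑ k ∈ Finset.range n, D k with hB
  have hD0 := h.D0 n
  have hκ1 : ∀ᵐ u ∂κ, 0 ≤ u.1 ∧ u.1 ≤ B ∧ ‖u.2.1‖ ≤ B ∧ ‖u.2.2‖ ≤ 1 := by
    rw [hκ, ae_map_iff hUm.aemeasurable (by
      refine MeasurableSet.inter ?_ (MeasurableSet.inter ?_ (MeasurableSet.inter ?_ ?_))
      · exact measurableSet_le measurable_const measurable_fst
      · exact measurableSet_le measurable_fst measurable_const
      · exact measurableSet_le (measurable_fst.comp measurable_snd).norm measurable_const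
      · exact measurableSet_le (measurable_snd.comp measurable_snd).norm measurable_const)]
    exact Eventually.of_forall fun ω => ⟨rm_nonneg V d n ω, rm_le V d h.vb D h.D0 h.db n ω,
      T_le V d h.vb D h.db n ω, W_le V h.vb n ω⟩
  have hbd : ∀ᵐ p ∂(κ.prod ν), ‖φ p‖ ≤ 4 * ((B + D n) ^ 2 + B ^ 2) + 4 * (B * ((B + D n) + B)) := by
    have h1 : ∀ᵐ p ∂(κ.prod ν), (0 ≤ p.1.1 ∧ p.1.1 ≤ B ∧ ‖p.1.2.1‖ ≤ B ∧ ‖p.1.2.2‖ ≤ 1) :=
      Measure.quasiMeasurePreserving_fst.ae hκ1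
    have h2 : ∀ᵐ p ∂(κ.prod ν), ‖p.2‖ ≤ D n := Measure.quasiMeasurePreserving_snd.ae hνn
    filter_upwards [h1, h2] with p hp1 hp2
    obtain ⟨q1, q2, q3, q5⟩ := hp1
    have q4 : ‖p.1.2.1 + p.1.2.2 * p.2‖ ≤ B + D n := by
      refine (norm_add_le _ _).trans (add_le_add q3 ?_)
      rw [norm_mul]
      nlinarith [norm_nonneg p.2, norm_nonneg p.1.2.2]
    have hB0 : 0 ≤ B := q1.trans q2
    rw [hφ]
    refine (norm_sub_le _ _).trans (add_le_add ?_ ?_)
    · rw [norm_mul, Real.norm_of_nonneg (by norm_num : (0:ℝ) ≤ 4)]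
      refine mul_le_mul_of_nonneg_left ?_ (by norm_num)
      refine (norm_sub_le _ _).trans (add_le_add ?_ ?_)
      · rw [Real.norm_of_nonneg (by positivity)]
        exact pow_le_pow_left₀ (norm_nonneg _) q4 2
      · rw [Real.norm_of_nonneg (by positivity)]
        exact pow_le_pow_left₀ (norm_nonneg _) q3 2
    · rw [norm_mul, Real.norm_of_nonneg (by norm_num : (0:ℝ) ≤ 4), norm_mul,
        Real.norm_of_nonneg q1]
      refine mul_le_mul_of_nonneg_left ?_ (by norm_num)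
      refine mul_le_mul q2 ?_ (norm_nonneg _) hB0
      refine (norm_sub_le _ _).trans (add_le_add ?_ ?_)
      · rw [norm_norm]; exact q4
      · rw [norm_norm]; exact q3
  have hφi : Integrable φ (κ.prod ν) :=
    (integrable_const _).mono' hφc.aestronglyMeasurable hbd
  have e1 : ∫ ω, (4 * (‖T V d (n + 1) ω‖ ^ 2 - ‖T V d n ω‖ ^ 2) -
      4 * (rm V d n ω * (‖T V d (n + 1) ω‖ - ‖T V d n ω‖))) ∂P =
      ∫ p, φ p ∂(κ.prod ν) := by
    rw [← hmap, integral_map (hUm.prodMk hdm).aemeasurable hφc.aestronglyMeasurable]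
    congr 1
    funext ω
    simp only [hφ, T_succ]
  rw [e1, integral_prod _ hφi]
  calc ∫ u, ∫ z, φ (u, z) ∂ν ∂κ ≤ ∫ _, 4 * ∫ z, ‖z‖ ^ 2 ∂ν ∂κ := by
        refine integral_mono_ae hφi.integral_prod_left (integrable_const _) ?_
        filter_upwards [hκ1] with u hu
        exact inner ν (D n) hνn hν0 u.2.1 u.2.2 hu.2.2.2 u.1 hu.1
    _ = 4 * ∫ ω, ‖d n ω‖ ^ 2 ∂P := by
        rw [hν2]
        simp

/-- Doob's inequality -/
theorem doob (P : Measure Ω) [IsProbabilityMeasure P] (F : ℕ → MeasurableSpace Ω)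
    (V d : ℕ → Ω → ℂ) (D : ℕ → ℝ) (h : Mart P F V d D) (n : ℕ) :
    ∫ ω, rm V d n ω ^ 2 ∂P ≤ 4 * ∑ k ∈ Finset.range n, ∫ ω, ‖d k ω‖ ^ 2 ∂P := by
  have hTm : ∀ n, Measurable (T V d n) := fun n =>
    T_meas _ V d n (fun k _ => h.vm k) (fun k _ => h.dm k)
  have hrmm : ∀ n, Measurable (rm V d n) := fun n =>
    rm_meas _ V d n (fun k _ => h.vm k) (fun k _ => h.dm k)
  set B : ℕ → ℝ := fun n => ∑ k ∈ Finset.range n, D k with hB
  have hB0 : ∀ n, 0 ≤ B n := fun n => Finset.sum_nonneg fun k _ => h.D0 k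
  have bddI : ∀ (F : Ω → ℝ) (c : ℝ), Measurable F → (∀ ω, ‖F ω‖ ≤ c) → Integrable F P :=
    fun F c hF hc => (integrable_const c).mono' hF.aestronglyMeasurable (Eventually.of_forall hc)
  have i1 : ∀ n, Integrable (fun ω => ‖T V d n ω‖ ^ 2) P := fun n =>
    bddI _ (B n ^ 2) ((hTm n).norm.pow_const 2) fun ω => by
      rw [Real.norm_of_nonneg (by positivity)]
      exact pow_le_pow_left₀ (norm_nonneg _) (T_le V d h.vb D h.db n ω) 2
  have i2 : ∀ n, Integrable (fun ω => rm V d n ω * (‖T V d (n + 1) ω‖ - ‖T V d n ω‖)) P := fun n =>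
    bddI _ (B n * (B (n + 1) + B n)) ((hrmm n).mul ((hTm (n + 1)).norm.sub (hTm n).norm)) fun ω => by
      rw [norm_mul, Real.norm_of_nonneg (rm_nonneg _ _ _ _)]
      refine mul_le_mul (rm_le V d h.vb D h.D0 h.db n ω) ?_ (norm_nonneg _) (hB0 n)
      refine (norm_sub_le _ _).trans (add_le_add ?_ ?_)
      · rw [norm_norm]; exact T_le V d h.vb D h.db (n + 1) ω
      · rw [norm_norm]; exact T_le V d h.vb D h.db n ω
  have i3 : ∀ n, Integrable (fun ω => rm V d n ω ^ 2) P := fun n =>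
    bddI _ (B n ^ 2) ((hrmm n).pow_const 2) fun ω => by
      rw [Real.norm_of_nonneg (by positivity)]
      exact pow_le_pow_left₀ (rm_nonneg _ _ _ _) (rm_le V d h.vb D h.D0 h.db n ω) 2
  have hsum : ∀ ω, 4 * ‖T V d n ω‖ ^ 2 - 4 * ∑ k ∈ Finset.range n,
      rm V d k ω * (‖T V d (k + 1) ω‖ - ‖T V d k ω‖) =
      ∑ k ∈ Finset.range n, (4 * (‖T V d (k + 1) ω‖ ^ 2 - ‖T V d k ω‖ ^ 2) -
        4 * (rm V d k ω * (‖T V d (k + 1) ω‖ - ‖T V d k ω‖))) := by
    intro ω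
    rw [Finset.sum_sub_distrib, ← Finset.mul_sum, ← Finset.mul_sum]
    congr 2
    have := Finset.sum_range_sub (fun k => ‖T V d k ω‖ ^ 2) n
    rw [this]
    simp [T]
  calc ∫ ω, rm V d n ω ^ 2 ∂P
      ≤ ∫ ω, (∑ k ∈ Finset.range n, (4 * (‖T V d (k + 1) ω‖ ^ 2 - ‖T V d k ω‖ ^ 2) -
        4 * (rm V d k ω * (‖T V d (k + 1) ω‖ - ‖T V d k ω‖)))) ∂P := by
        refine integral_mono (i3 n) ?_ fun ω => ?_
        · exact integrable_finsetSum _ fun k _ =>
            (((i1 (k + 1)).sub (i1 k)).const_mul 4).sub ((i2 k).const_mul 4)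
        · beta_reduce
          rw [← hsum ω]
          exact path_sq (fun k => ‖T V d k ω‖) n
    _ = ∑ k ∈ Finset.range n, ∫ ω, (4 * (‖T V d (k + 1) ω‖ ^ 2 - ‖T V d k ω‖ ^ 2) -
        4 * (rm V d k ω * (‖T V d (k + 1) ω‖ - ‖T V d k ω‖))) ∂P :=
        integral_finsetSum _ fun k _ =>
            (((i1 (k + 1)).sub (i1 k)).const_mul 4).sub ((i2 k).const_mul 4)
    _ ≤ ∑ k ∈ Finset.range n, 4 * ∫ ω, ‖d k ω‖ ^ 2 ∂P :=
        Finset.sum_le_sum fun k _ => step P F V d D h k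
    _ = _ := by rw [Finset.mul_sum]

end Q48.RW
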