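import Pool.Agent.Q48.RW.Mart

/-! A maximal inequality for the sums `∑ W_k G_k`, where `W_k` is the product of the first `k`
multipliers `V_j`, the pairs `(V_k, G_k)` are independent of the past and `|E V_k| ≤ 1/2`. -/

set_option autoImplicit false

namespace Q48.RW

open MeasureTheory ProbabilityTheory Filter
open scoped ENNReal
open Q87.RA (run le_run run_mono run_nonneg run_le path_sq)

/-- the expected future sums -/
lemma exists_A (N : ℕ) : ∀ g v : ℕ → ℂ, ∃ A : ℕ → ℂ,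
    (∀ k < N, A k = g k + v k * A (k + 1)) ∧ ∀ k, N ≤ k → A k = 0 := by
  induction N with
  | zero => exact fun g v => ⟨fun _ => 0, fun k hk => absurd hk (Nat.not_lt_zero k), fun _ _ => rfl⟩
  | succ N ih =>
    intro g v
    obtain ⟨A', h1, h2⟩ := ih (fun k => g (k + 1)) (fun k => v (k + 1))
    refine ⟨fun k => if k = 0 then g 0 + v 0 * A' 0 else A' (k - 1), ?_, ?_⟩
    · intro k hk
      cases k with
      | zero => simp
      | succ k =>
        simp only [Nat.succ_ne_zero, if_false, Nat.add_sub_cancel]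
        exact h1 k (by omega)
    · intro k hk
      have : k ≠ 0 := by omega
      simp only [this, if_false]
      exact h2 _ (by omega)

lemma sq_half (x y z w : ℂ) (hw : ‖w‖ ≤ 1 / 2) (h : z = x + w * y) :
    ‖z‖ ^ 2 ≤ 2 * ‖x‖ ^ 2 + 1 / 2 * ‖y‖ ^ 2 := by
  have h1 : ‖z‖ ≤ ‖x‖ + 1 / 2 * ‖y‖ := by
    rw [h]
    refine (norm_add_le _ _).trans (add_le_add le_rfl ?_)
    rw [norm_mul]
    exact mul_le_mul_of_nonneg_right hw (norm_nonneg _)
  have h2 : ‖z‖ ^ 2 ≤ (‖x‖ + 1 / 2 * ‖y‖) ^ 2 := pow_le_pow_left₀ (norm_nonneg _) h1 2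
  nlinarith [sq_nonneg (‖x‖ - 1 / 2 * ‖y‖)]

lemma shift_sum (N : ℕ) (A : ℕ → ℂ) (h0 : A N = 0) :
    ∑ k ∈ Finset.range N, ‖A (k + 1)‖ ^ 2 ≤ ∑ k ∈ Finset.range N, ‖A k‖ ^ 2 := by
  have h1 := Finset.sum_range_succ (fun k => ‖A k‖ ^ 2) N
  have h2 := Finset.sum_range_succ' (fun k => ‖A k‖ ^ 2) N
  rw [h0] at h1
  simp only [norm_zero, ne_eq, OfNat.ofNat_ne_zero, not_false_eq_true, zero_pow, add_zero] at h1
  have h3 : 0 ≤ ‖A 0‖ ^ 2 := by positivity
  linarith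

lemma A_sq (N : ℕ) (g v A : ℕ → ℂ) (hv : ∀ k, ‖v k‖ ≤ 1 / 2)
    (hA : ∀ k < N, A k = g k + v k * A (k + 1)) (h0 : ∀ k, N ≤ k → A k = 0) :
    ∑ k ∈ Finset.range N, ‖A k‖ ^ 2 ≤ 4 * ∑ k ∈ Finset.range N, ‖g k‖ ^ 2 := by
  have h1 : ∑ k ∈ Finset.range N, ‖A k‖ ^ 2 ≤
      ∑ k ∈ Finset.range N, (2 * ‖g k‖ ^ 2 + 1 / 2 * ‖A (k + 1)‖ ^ 2) :=
    Finset.sum_le_sum fun k hk => sq_half _ _ _ _ (hv k) (hA k (Finset.mem_range.1 hk))
  rw [Finset.sum_add_distrib, ← Finset.mul_sum, ← Finset.mul_sum] at h1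
  have h2 := shift_sum N A (h0 N le_rfl)
  linarith

lemma A_single (N : ℕ) (g v A : ℕ → ℂ) (hv : ∀ k, ‖v k‖ ≤ 1 / 2)
    (hA : ∀ k < N, A k = g k + v k * A (k + 1)) (h0 : ∀ k, N ≤ k → A k = 0) (k : ℕ) :
    ‖A k‖ ^ 2 ≤ 4 * ∑ k ∈ Finset.range N, ‖g k‖ ^ 2 := by
  rcases lt_or_ge k N with hk | hk
  · refine le_trans ?_ (A_sq N g v A hv hA h0)
    exact Finset.single_le_sum (f := fun k => ‖A k‖ ^ 2) (fun _ _ => by positivity)
      (Finset.mem_range.2 hk)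
  · rw [h0 k hk]
    simp only [norm_zero, ne_eq, OfNat.ofNat_ne_zero, not_false_eq_true, zero_pow]
    exact mul_nonneg (by norm_num) (Finset.sum_nonneg fun _ _ => by positivity)

variable {Ω : Type*} [m0 : MeasurableSpace Ω]

/-- the blocks -/
structure Blk (P : Measure Ω) (F : ℕ → MeasurableSpace Ω) (V G : ℕ → Ω → ℂ) : Prop where
  vm : ∀ k, Measurable (V k)
  gm : ∀ k, Measurable (G k)
  vF : ∀ n, ∀ k < n, Measurable[F n] (V k)
  gF : ∀ n, ∀ k < n, Measurable[F n] (G k)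
  ind : ∀ n, Indep (F n) (MeasurableSpace.comap (fun ω => (V n ω, G n ω)) inferInstance) P
  vb : ∀ k ω, ‖V k ω‖ ≤ 1
  gb : ∀ k, ∃ B : ℝ, ∀ ω, ‖G k ω‖ ≤ B
  half : ∀ k, ‖∫ ω, V k ω ∂P‖ ≤ 1 / 2

/-- the centred differences -/
noncomputable def del (P : Measure Ω) (V G : ℕ → Ω → ℂ) (A : ℕ → ℂ) (k : ℕ) (ω : Ω) : ℂ :=
  (G k ω - ∫ ω, G k ω ∂P) + (V k ω - ∫ ω, V k ω ∂P) * A (k + 1)

lemma mart (P : Measure Ω) [IsProbabilityMeasure P] (F : ℕ → MeasurableSpace Ω)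
    (V G : ℕ → Ω → ℂ) (h : Blk P F V G) (A : ℕ → ℂ) : ∃ D, Mart P F V (del P V G A) D := by
  choose B hB using h.gb
  have hB0 : ∀ k, 0 ≤ B k := fun k => by
    obtain ⟨ω⟩ : Nonempty Ω := P.nonempty_of_neZero
    exact (norm_nonneg _).trans (hB k ω)
  have hg : ∀ k, ‖∫ ω, G k ω ∂P‖ ≤ B k := fun k => by
    have := norm_integral_le_of_norm_le_const (μ := P) (Eventually.of_forall (hB k))
    simpa using this
  have hgi : ∀ k, Integrable (G k) P := fun k =>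
    (integrable_const (B k)).mono' (h.gm k).aestronglyMeasurable (Eventually.of_forall (hB k))
  have hvi : ∀ k, Integrable (V k) P := fun k =>
    (integrable_const (1 : ℝ)).mono' (h.vm k).aestronglyMeasurable (Eventually.of_forall (h.vb k))
  refine ⟨fun k => (B k + B k) + (1 + 1 / 2) * ‖A (k + 1)‖, ?_⟩
  refine ⟨h.vm, ?_, h.vF, ?_, ?_, h.vb, ?_, ?_, ?_⟩
  · intro k
    unfold del
    exact ((h.gm k).sub_const _).add (((h.vm k).sub_const _).mul_const _)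
  · intro n k hk
    unfold del
    exact ((h.gF n k hk).sub_const _).add (((h.vF n k hk).sub_const _).mul_const _)
  · intro n
    refine indep_of_indep_of_le_right (h.ind n) ?_
    rw [← measurable_iff_comap_le]
    have h1 : Measurable fun p : ℂ × ℂ => (p.2 - ∫ ω, G n ω ∂P) +
        (p.1 - ∫ ω, V n ω ∂P) * A (n + 1) :=
      (measurable_snd.sub_const _).add ((measurable_fst.sub_const _).mul_const _)
    exact h1.comp (comap_measurable (fun ω => (V n ω, G n ω)))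
  · intro k
    have := hB0 k
    positivity
  · intro k ω
    unfold del
    refine (norm_add_le _ _).trans (add_le_add ?_ ?_)
    · exact (norm_sub_le _ _).trans (add_le_add (hB k ω) (hg k))
    · rw [norm_mul]
      exact mul_le_mul_of_nonneg_right ((norm_sub_le _ _).trans (add_le_add (h.vb k ω) (h.half k)))
        (norm_nonneg _)
  · intro k
    unfold del
    have i1 : Integrable (fun ω => G k ω - ∫ ω, G k ω ∂P) P := (hgi k).sub (integrable_const _)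
    have i2 : Integrable (fun ω => V k ω - ∫ ω, V k ω ∂P) P := (hvi k).sub (integrable_const _)
    rw [integral_add i1 (i2.mul_const _), integral_mul_const, integral_sub (hgi k) (integrable_const _),
      integral_sub (hvi k) (integrable_const _)]
    simp

lemma sum_eq (P : Measure Ω) (V G : ℕ → Ω → ℂ) (A : ℕ → ℂ) (N : ℕ)
    (hA : ∀ k < N, A k = (∫ ω, G k ω ∂P) + (∫ ω, V k ω ∂P) * A (k + 1)) (ω : Ω) (n : ℕ)
    (hn : n ≤ N) : T V G n ω = A 0 + T V (del P V G A) n ω - W V n ω * A n := by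
  induction n with
  | zero => rw [T_zero, T_zero, W_zero]; ring
  | succ n ih =>
    rw [T_succ, T_succ, W_succ, ih (by omega)]
    have h1 := hA n (by omega)
    unfold del
    linear_combination -(W V n ω * h1)

lemma sq_integral_le (P : Measure Ω) [IsProbabilityMeasure P] (G : Ω → ℂ) (B : ℝ)
    (hm : Measurable G) (hB : ∀ ω, ‖G ω‖ ≤ B) : ‖∫ ω, G ω ∂P‖ ^ 2 ≤ ∫ ω, ‖G ω‖ ^ 2 ∂P := by
  have h1 : Integrable (fun ω => ‖G ω‖) P :=
    (integrable_const B).mono' hm.norm.aestronglyMeasurable (Eventually.of_forall fun ω => by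
      rw [norm_norm]; exact hB ω)
  have h2 : Integrable (fun ω => ‖G ω‖ ^ 2) P :=
    (integrable_const (B ^ 2)).mono' (hm.norm.pow_const 2).aestronglyMeasurable
      (Eventually.of_forall fun ω => by
        rw [Real.norm_of_nonneg (by positivity)]
        exact pow_le_pow_left₀ (norm_nonneg _) (hB ω) 2)
  set c : ℝ := ∫ ω, ‖G ω‖ ∂P with hc
  have h3 : ‖∫ ω, G ω ∂P‖ ≤ c := norm_integral_le_integral_norm _
  have h4 : 0 ≤ ∫ ω, (‖G ω‖ - c) ^ 2 ∂P := integral_nonneg fun _ => by positivity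
  have h5 : ∫ ω, (‖G ω‖ - c) ^ 2 ∂P = ∫ ω, ‖G ω‖ ^ 2 ∂P - c ^ 2 := by
    have e : ∀ ω, (‖G ω‖ - c) ^ 2 = ‖G ω‖ ^ 2 - 2 * c * ‖G ω‖ + c ^ 2 := fun ω => by ring
    simp_rw [e]
    have i1 : Integrable (fun ω => 2 * c * ‖G ω‖) P := h1.const_mul _
    have i2 : Integrable (fun ω => ‖G ω‖ ^ 2 - 2 * c * ‖G ω‖) P := h2.sub i1
    rw [integral_add i2 (integrable_const _), integral_sub h2 i1, integral_const_mul, ← hc]
    simp
    ring
  have h6 : ‖∫ ω, G ω ∂P‖ ^ 2 ≤ c ^ 2 := pow_le_pow_left₀ (norm_nonneg _) h3 2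
  linarith

lemma del_sq (P : Measure Ω) [IsProbabilityMeasure P] (F : ℕ → MeasurableSpace Ω)
    (V G : ℕ → Ω → ℂ) (h : Blk P F V G) (A : ℕ → ℂ) (k : ℕ) :
    ∫ ω, ‖del P V G A k ω‖ ^ 2 ∂P ≤ 8 * ∫ ω, ‖G k ω‖ ^ 2 ∂P + 8 * ‖A (k + 1)‖ ^ 2 := by
  obtain ⟨B, hB⟩ := h.gb k
  have h2 : Integrable (fun ω => ‖G k ω‖ ^ 2) P :=
    (integrable_const (B ^ 2)).mono' ((h.gm k).norm.pow_const 2).aestronglyMeasurable
      (Eventually.of_forall fun ω => by
        rw [Real.norm_of_nonneg (by positivity)]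
        exact pow_le_pow_left₀ (norm_nonneg _) (hB ω) 2)
  obtain ⟨D, hM⟩ := mart P F V G h A
  have h3 : Integrable (fun ω => ‖del P V G A k ω‖ ^ 2) P :=
    (integrable_const (D k ^ 2)).mono' ((hM.dm k).norm.pow_const 2).aestronglyMeasurable
      (Eventually.of_forall fun ω => by
        rw [Real.norm_of_nonneg (by positivity)]
        exact pow_le_pow_left₀ (norm_nonneg _) (hM.db k ω) 2)
  set g : ℂ := ∫ ω, G k ω ∂P with hg
  have h4 : ‖g‖ ^ 2 ≤ ∫ ω, ‖G k ω‖ ^ 2 ∂P := sq_integral_le P (G k) B (h.gm k) hB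
  have h5 : ∀ ω, ‖del P V G A k ω‖ ^ 2 ≤
      4 * ‖G k ω‖ ^ 2 + (4 * ‖g‖ ^ 2 + 8 * ‖A (k + 1)‖ ^ 2) := by
    intro ω
    unfold del
    rw [← hg]
    have q1 : ‖(G k ω - g) + (V k ω - ∫ ω, V k ω ∂P) * A (k + 1)‖ ≤
        ‖G k ω‖ + ‖g‖ + 2 * ‖A (k + 1)‖ := by
      refine (norm_add_le _ _).trans (add_le_add (norm_sub_le _ _) ?_)
      rw [norm_mul]
      refine mul_le_mul_of_nonneg_right ?_ (norm_nonneg _)
      refine (norm_sub_le _ _).trans ?_
      have := h.vb k ω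
      have := h.half k
      linarith
    have q2 := pow_le_pow_left₀ (norm_nonneg _) q1 2
    refine q2.trans ?_
    nlinarith [sq_nonneg (‖G k ω‖ - ‖g‖), sq_nonneg (‖G k ω‖ + ‖g‖ - 2 * ‖A (k + 1)‖)]
  calc ∫ ω, ‖del P V G A k ω‖ ^ 2 ∂P
      ≤ ∫ ω, (4 * ‖G k ω‖ ^ 2 + (4 * ‖g‖ ^ 2 + 8 * ‖A (k + 1)‖ ^ 2)) ∂P :=
        integral_mono h3 ((h2.const_mul 4).add (integrable_const _)) h5
    _ = 4 * ∫ ω, ‖G k ω‖ ^ 2 ∂P + (4 * ‖g‖ ^ 2 + 8 * ‖A (k + 1)‖ ^ 2) := by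
        rw [integral_add (h2.const_mul 4) (integrable_const _), integral_const_mul]
        simp
    _ ≤ _ := by linarith

lemma rm_sq_le {x y c : ℝ} (hx : 0 ≤ x) (h : x ≤ y + 2 * c) : x ^ 2 ≤ 2 * y ^ 2 + 8 * c ^ 2 := by
  have h1 := pow_le_pow_left₀ hx h 2
  nlinarith [sq_nonneg (y - 2 * c)]

/-- the renewal inequality, real form -/
theorem renewal_real (P : Measure Ω) [IsProbabilityMeasure P] (F : ℕ → MeasurableSpace Ω)
    (V G : ℕ → Ω → ℂ) (h : Blk P F V G) (N : ℕ) :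
    ∫ ω, rm V G N ω ^ 2 ∂P ≤ 352 * ∑ k ∈ Finset.range N, ∫ ω, ‖G k ω‖ ^ 2 ∂P := by
  choose B hB using h.gb
  obtain ⟨A, hA, h0⟩ := exists_A N (fun k => ∫ ω, G k ω ∂P) (fun k => ∫ ω, V k ω ∂P)
  obtain ⟨D, hM⟩ := mart P F V G h A
  have hdoob := doob P F V _ D hM N
  set g2 : ℝ := ∑ k ∈ Finset.range N, ‖∫ ω, G k ω ∂P‖ ^ 2 with hg2
  set E : ℝ := ∑ k ∈ Finset.range N, ∫ ω, ‖G k ω‖ ^ 2 ∂P with hE
  have hgE : g2 ≤ E := Finset.sum_le_sum fun k _ => sq_integral_le P (G k) (B k) (h.gm k) (hB k)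
  have hg0 : 0 ≤ g2 := Finset.sum_nonneg fun _ _ => by positivity
  have hAs := A_sq N _ _ A h.half hA h0
  have hA1 := A_single N _ _ A h.half hA h0
  have hsh := shift_sum N A (h0 N le_rfl)
  have hdel : ∑ k ∈ Finset.range N, ∫ ω, ‖del P V G A k ω‖ ^ 2 ∂P ≤ 40 * E := by
    calc ∑ k ∈ Finset.range N, ∫ ω, ‖del P V G A k ω‖ ^ 2 ∂P
        ≤ ∑ k ∈ Finset.range N, (8 * ∫ ω, ‖G k ω‖ ^ 2 ∂P + 8 * ‖A (k + 1)‖ ^ 2) :=
          Finset.sum_le_sum fun k _ => del_sq P F V G h A k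
      _ = 8 * E + 8 * ∑ k ∈ Finset.range N, ‖A (k + 1)‖ ^ 2 := by
          rw [Finset.sum_add_distrib, ← Finset.mul_sum, ← Finset.mul_sum]
      _ ≤ _ := by linarith
  set c : ℝ := Real.sqrt (4 * g2) with hc
  have hc2 : c ^ 2 = 4 * g2 := Real.sq_sqrt (by positivity)
  have hAc : ∀ k, ‖A k‖ ≤ c := fun k => by
    rw [hc]
    exact Real.le_sqrt_of_sq_le (hA1 k)
  have hpt : ∀ ω, rm V G N ω ^ 2 ≤ 2 * rm V (del P V G A) N ω ^ 2 + 8 * c ^ 2 := by
    intro ω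
    refine rm_sq_le (rm_nonneg _ _ _ _) ?_
    refine run_le _ _ _ fun k hk => ?_
    rw [sum_eq P V G A N hA ω k hk]
    have e1 : ‖T V (del P V G A) k ω‖ ≤ rm V (del P V G A) N ω :=
      (le_run (fun k => ‖T V (del P V G A) k ω‖) k).trans (run_mono _ hk)
    have e2 : ‖W V k ω * A k‖ ≤ c := by
      rw [norm_mul]
      have := W_le V h.vb k ω
      have := hAc k
      nlinarith [norm_nonneg (W V k ω), norm_nonneg (A k)]
    have e3 := hAc 0
    calc ‖A 0 + T V (del P V G A) k ω - W V k ω * A k‖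
        ≤ ‖A 0 + T V (del P V G A) k ω‖ + ‖W V k ω * A k‖ := norm_sub_le _ _
      _ ≤ (‖A 0‖ + ‖T V (del P V G A) k ω‖) + ‖W V k ω * A k‖ := by
          gcongr
          exact norm_add_le _ _
      _ ≤ _ := by linarith
  have bddI : ∀ (F : Ω → ℝ) (c : ℝ), Measurable F → (∀ ω, ‖F ω‖ ≤ c) → Integrable F P :=
    fun F c hF hc => (integrable_const c).mono' hF.aestronglyMeasurable (Eventually.of_forall hc)
  have i1 : Integrable (fun ω => rm V G N ω ^ 2) P := by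
    have hB0 : ∀ k, 0 ≤ B k := fun k => by
      obtain ⟨ω⟩ : Nonempty Ω := P.nonempty_of_neZero
      exact (norm_nonneg _).trans (hB k ω)
    refine bddI _ ((∑ k ∈ Finset.range N, B k) ^ 2)
      ((rm_meas _ V G N (fun k _ => h.vm k) (fun k _ => h.gm k)).pow_const 2) fun ω => ?_
    rw [Real.norm_of_nonneg (by positivity)]
    exact pow_le_pow_left₀ (rm_nonneg _ _ _ _) (rm_le V G h.vb B hB0 hB N ω) 2
  have i2 : Integrable (fun ω => rm V (del P V G A) N ω ^ 2) P := by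
    refine bddI _ ((∑ k ∈ Finset.range N, D k) ^ 2)
      ((rm_meas _ V _ N (fun k _ => hM.vm k) (fun k _ => hM.dm k)).pow_const 2) fun ω => ?_
    rw [Real.norm_of_nonneg (by positivity)]
    exact pow_le_pow_left₀ (rm_nonneg _ _ _ _) (rm_le V _ hM.vb D hM.D0 hM.db N ω) 2
  calc ∫ ω, rm V G N ω ^ 2 ∂P ≤ ∫ ω, (2 * rm V (del P V G A) N ω ^ 2 + 8 * c ^ 2) ∂P :=
        integral_mono i1 ((i2.const_mul 2).add (integrable_const _)) hpt
    _ = 2 * ∫ ω, rm V (del P V G A) N ω ^ 2 ∂P + 8 * c ^ 2 := by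
        rw [integral_add (i2.const_mul 2) (integrable_const _), integral_const_mul]
        simp
    _ ≤ 352 * E := by
        rw [hc2]
        linarith

/-- the maximal function -/
noncomputable def mxg (V G : ℕ → Ω → ℂ) (ω : Ω) : ℝ≥0∞ := ⨆ n, ‖T V G n ω‖ₑ ^ 2

/-- the renewal inequality -/
theorem renewal (P : Measure Ω) [IsProbabilityMeasure P] (F : ℕ → MeasurableSpace Ω)
    (V G : ℕ → Ω → ℂ) (h : Blk P F V G) :
    ∫⁻ ω, mxg V G ω ∂P ≤ 352 * ∑' k, ∫⁻ ω, ‖G k ω‖ₑ ^ 2 ∂P := by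
  choose B hB using h.gb
  have hB0 : ∀ k, 0 ≤ B k := fun k => by
    obtain ⟨ω⟩ : Nonempty Ω := P.nonempty_of_neZero
    exact (norm_nonneg _).trans (hB k ω)
  have hrmm : ∀ n, Measurable (rm V G n) := fun n =>
    rm_meas _ V G n (fun k _ => h.vm k) (fun k _ => h.gm k)
  have h1 : ∀ ω, mxg V G ω ≤ ⨆ n, ENNReal.ofReal (rm V G n ω ^ 2) := by
    intro ω
    refine iSup_mono fun n => ?_
    rw [← ofReal_norm, ← ENNReal.ofReal_pow (norm_nonneg _)]
    exact ENNReal.ofReal_le_ofReal (pow_le_pow_left₀ (norm_nonneg _)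
      (le_run (fun k => ‖T V G k ω‖) n) 2)
  have hsq : ∀ k, ∫⁻ ω, ‖G k ω‖ₑ ^ 2 ∂P = ENNReal.ofReal (∫ ω, ‖G k ω‖ ^ 2 ∂P) := by
    intro k
    have h2 : Integrable (fun ω => ‖G k ω‖ ^ 2) P :=
      (integrable_const (B k ^ 2)).mono' ((h.gm k).norm.pow_const 2).aestronglyMeasurable
        (Eventually.of_forall fun ω => by
          rw [Real.norm_of_nonneg (by positivity)]
          exact pow_le_pow_left₀ (norm_nonneg _) (hB k ω) 2)
    rw [ofReal_integral_eq_lintegral_ofReal h2 (Eventually.of_forall fun ω => by positivity)]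
    refine lintegral_congr fun ω => ?_
    rw [ENNReal.ofReal_pow (norm_nonneg _), ofReal_norm]
  refine (lintegral_mono h1).trans ?_
  rw [lintegral_iSup (fun n => ((hrmm n).pow_const 2).ennreal_ofReal)]
  · refine iSup_le fun n => ?_
    have hint : Integrable (fun ω => rm V G n ω ^ 2) P := by
      refine (integrable_const ((∑ k ∈ Finset.range n, B k) ^ 2)).mono'
        ((hrmm n).pow_const 2).aestronglyMeasurable (Eventually.of_forall fun ω => ?_)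
      rw [Real.norm_of_nonneg (by positivity)]
      exact pow_le_pow_left₀ (rm_nonneg _ _ _ _) (rm_le V G h.vb B hB0 hB n ω) 2
    rw [← ofReal_integral_eq_lintegral_ofReal hint (Eventually.of_forall fun ω => by positivity)]
    calc ENNReal.ofReal (∫ ω, rm V G n ω ^ 2 ∂P)
        ≤ ENNReal.ofReal (352 * ∑ k ∈ Finset.range n, ∫ ω, ‖G k ω‖ ^ 2 ∂P) :=
          ENNReal.ofReal_le_ofReal (renewal_real P F V G h n)
      _ = 352 * ∑ k ∈ Finset.range n, ∫⁻ ω, ‖G k ω‖ₑ ^ 2 ∂P := by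
          rw [ENNReal.ofReal_mul (by norm_num), ENNReal.ofReal_sum_of_nonneg
            (fun _ _ => integral_nonneg fun _ => by positivity)]
          congr 1
          · simp
          · exact Finset.sum_congr rfl fun k _ => (hsq k).symm
      _ ≤ _ := by
          gcongr
          exact ENNReal.sum_le_tsum _
  · intro m n hmn ω
    refine ENNReal.ofReal_le_ofReal (pow_le_pow_left₀ (rm_nonneg _ _ _ _) ?_ 2)
    exact run_mono _ hmn

end Q48.RW
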